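import Mathlib
import Pool.Graph.R_seed8.H790R3.RB.TINJL
import Pool.Graph.R_seed8.H790R3.RB.TSP
import Pool.Graph.R_seed8.H790R3.RB.TWR
import Pool.Graph.R_seed8.H790R3.RB.TPQ
import Pool.Graph.R_seed8.H790R3.RB.TMOB
import Pool.Graph.R_seed8.W364.NM.Lin

/-! Rational maps all of whose critical points converge to attracting fixed points; changes of
coordinates. -/

set_option autoImplicit false

open Topology Filter Metric Set MeasureTheory Polynomial
open scoped Real NNReal OnePoint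

namespace Pool.Agent.Helper65.EU

open Pool.Agent.H790R3.RB

/-- all the critical points converge to attracting fixed points -/
def HypFix (f : OnePoint ℂ → OnePoint ℂ) : Prop :=
  ∀ c : OnePoint ℂ, (¬ ∃ U ∈ 𝓝 c, InjOn f U) → ∃ z : OnePoint ℂ, f z = z ∧
    (∃ U ∈ 𝓝 z, ∀ w ∈ U, Tendsto (fun k : ℕ => f^[k] w) atTop (𝓝 z)) ∧
    Tendsto (fun k : ℕ => f^[k] c) atTop (𝓝 z)

theorem wr_at_inf {d : ℕ} (hd : 1 ≤ d) (x : CV d) (h : x (1, Fin.last d) = 0) :
    wr x (1, 0) = (x (0, Fin.last d) * d) * x (1, ⟨d - 1, by omega⟩) := by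
  have h1 : ∀ i : Fin 2, (∑ j : Fin (d + 1), x (i, j) * (((j : ℕ) : ℂ) * (1 : ℂ) ^ ((j : ℕ) - 1) *
      (0 : ℂ) ^ (d - (j : ℕ)))) = x (i, Fin.last d) * d := by
    intro i
    rw [Finset.sum_eq_single_of_mem (Fin.last d) (Finset.mem_univ _)]
    · simp
    · intro j _ hj
      have h1 : d - (j : ℕ) ≠ 0 := by
        intro h
        apply hj
        apply Fin.ext
        have := j.2
        rw [Fin.val_last]
        omega
      rw [zero_pow h1, mul_zero, mul_zero]
  have h2 : (∑ j : Fin (d + 1), x (1, j) * (((d - (j : ℕ) : ℕ) : ℂ) * (1 : ℂ) ^ (j : ℕ) *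
      (0 : ℂ) ^ (d - (j : ℕ) - 1))) = x (1, ⟨d - 1, by omega⟩) := by
    rw [Finset.sum_eq_single_of_mem (⟨d - 1, by omega⟩ : Fin (d + 1)) (Finset.mem_univ _)]
    · have e1 : d - (d - 1) = 1 := by omega
      simp [e1]
    · intro j _ hj
      by_cases hjd : (j : ℕ) = d
      · rw [hjd]
        simp
      · have h1 : d - (j : ℕ) - 1 ≠ 0 := by
          intro h
          apply hj
          apply Fin.ext
          have := j.2
          show (j : ℕ) = d - 1
          omega
        rw [zero_pow h1, mul_zero, mul_zero]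
  unfold wr
  simp only
  rw [h1 0, h1 1, h2, h]
  ring

/-- the pair `(P, Q)` represents a rational map of degree `d` all of whose critical points converge
to attracting fixed points -/
def HypPair (d : ℕ) (P Q : ℂ[X]) : Prop :=
  IsCoprime P Q ∧ max P.natDegree Q.natDegree = d ∧
    ∃ f : OnePoint ℂ → OnePoint ℂ, Continuous f ∧
      (∀ z : ℂ, Q.eval z ≠ 0 → f z = (P.eval z / Q.eval z : ℂ)) ∧ HypFix f

/-- the directions of a point -/
theorem circ {w : ℂ} (hw : w ≠ 0) : {θ : ℝ | ∃ s : ℝ, w = s * Complex.exp (θ * Complex.I)}.Countable := by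
  set A := {θ : ℝ | ∃ s : ℝ, w = s * Complex.exp (θ * Complex.I)} with hA
  rcases A.eq_empty_or_nonempty with h | ⟨θ0, s0, h0⟩
  · rw [h]; exact countable_empty
  · have hsub : A ⊆ range (fun n : ℤ => θ0 + n * π) := by
      rintro θ ⟨s, hs⟩
      have hs0 : (s : ℂ) ≠ 0 := by
        intro h
        rw [h, zero_mul] at hs
        exact hw hs
      have h1 : Complex.exp (((θ - θ0 : ℝ) : ℂ) * Complex.I) = ((s0 / s : ℝ) : ℂ) := by
        have h2 : (s : ℂ) * Complex.exp (θ * Complex.I) = s0 * Complex.exp (θ0 * Complex.I) := by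
          rw [← hs, ← h0]
        have h3 : (((θ - θ0 : ℝ) : ℂ) * Complex.I) = θ * Complex.I - θ0 * Complex.I := by
          push_cast; ring
        rw [h3, Complex.exp_sub]
        push_cast
        rw [div_eq_div_iff (Complex.exp_ne_zero _) hs0]
        rw [mul_comm]
        exact h2
      have h4 : Real.sin (θ - θ0) = 0 := by
        have h5 := congrArg Complex.im h1
        rw [Complex.exp_ofReal_mul_I_im, Complex.ofReal_im] at h5
        exact h5
      obtain ⟨n, hn⟩ := Real.sin_eq_zero_iff.1 h4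
      exact ⟨n, by simp only; linarith⟩
    exact (countable_range _).mono hsub

/-- the polynomial `w ^ N * G (b + 1 / w)` -/
noncomputable def flip (N : ℕ) (b : ℂ) (G : ℂ[X]) : ℂ[X] := reflect N (taylor b G)

theorem flip_eval {N : ℕ} {b : ℂ} {G : ℂ[X]} (hG : G.natDegree ≤ N) {w : ℂ} (hw : w ≠ 0) :
    (flip N b G).eval w = w ^ N * G.eval (b + w⁻¹) := by
  have hu : Invertible w⁻¹ := invertibleOfNonzero (inv_ne_zero hw)
  have h := Polynomial.eval₂_reflect_mul_pow (RingHom.id ℂ) w⁻¹ N (taylor b G)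
    (by rw [natDegree_taylor]; exact hG)
  rw [invOf_eq_inv, inv_inv] at h
  have h2 : eval₂ (RingHom.id ℂ) w⁻¹ (taylor b G) = G.eval (b + w⁻¹) := by
    have := taylor_eval b G w⁻¹
    rw [add_comm b]
    exact this
  rw [h2] at h
  have h3 : (flip N b G).eval w * w⁻¹ ^ N = G.eval (b + w⁻¹) := h
  rw [← h3, inv_pow]
  field_simp

theorem flip_natDegree {N : ℕ} {b : ℂ} {G : ℂ[X]} (hG : G.natDegree ≤ N) :
    (flip N b G).natDegree ≤ N := by
  unfold flip
  refine natDegree_reflect_le.trans ?_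
  rw [natDegree_taylor]
  exact max_le le_rfl hG

theorem eq_of_eval_ne {p q : ℂ[X]} (h : ∀ w : ℂ, w ≠ 0 → p.eval w = q.eval w) : p = q := by
  apply Polynomial.eq_of_infinite_eval_eq
  apply Set.Infinite.mono (s := {w : ℂ | w ≠ 0})
  · intro w hw
    exact h w hw
  · have : ({w : ℂ | w ≠ 0}) = ({0} : Set ℂ)ᶜ := rfl
    rw [this]
    exact (Set.finite_singleton 0).infinite_compl

theorem flip_prod {s : Finset ℂ} {b g : ℂ} (hb : b ∉ s) {G : ℂ[X]}
    (hG : ∀ z, G.eval z = g * ∏ p ∈ s, (z - p)) (hN : G.natDegree ≤ s.card) :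
    flip s.card b G = Polynomial.C (G.eval b) * ∏ p ∈ s, (Polynomial.X - Polynomial.C ((p - b)⁻¹)) := by
  apply eq_of_eval_ne
  intro w hw
  rw [flip_eval hN hw, hG, hG, eval_mul, eval_C, eval_prod]
  rw [← Finset.prod_const]
  have h1 : (∏ p ∈ s, w) * (g * ∏ p ∈ s, (b + w⁻¹ - p)) = g * ∏ p ∈ s, (w * (b + w⁻¹ - p)) := by
    rw [Finset.prod_mul_distrib]
    ring
  rw [h1, mul_assoc]
  congr 1
  rw [← Finset.prod_mul_distrib]
  refine Finset.prod_congr rfl fun p hp => ?_
  have hpb : p - b ≠ 0 := sub_ne_zero.2 (fun h => hb (h ▸ hp))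
  rw [eval_sub, eval_X, eval_C]
  field_simp
  ring

theorem prod_roots {F : ℂ[X]} (hF : F.Separable) (z : ℂ) :
    F.eval z = F.leadingCoeff * ∏ p ∈ F.roots.toFinset, (z - p) := by
  have h := (IsAlgClosed.splits F).eq_prod_roots
  have h2 : ∏ p ∈ F.roots.toFinset, (Polynomial.X - Polynomial.C p) =
      (F.roots.map (fun a => Polynomial.X - Polynomial.C a)).prod := by
    unfold Finset.prod
    rw [Multiset.toFinset_val, Multiset.dedup_eq_self.2 (nodup_roots hF)]
  rw [← h2] at h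
  have h3 := congrArg (Polynomial.eval z) h
  rw [eval_mul, eval_C, eval_prod] at h3
  simpa using h3

theorem card_roots' {F : ℂ[X]} (hF : F.Separable) : F.roots.toFinset.card = F.natDegree := by
  rw [Multiset.toFinset_card_of_nodup (nodup_roots hF)]
  exact splits_iff_card_roots.1 (IsAlgClosed.splits F)

theorem sep_aux {s : Finset ℂ} {b g : ℂ} (hg : g ≠ 0) :
    (Polynomial.C g * ∏ p ∈ s, (Polynomial.X - Polynomial.C ((p - b)⁻¹))).Separable := by
  apply Separable.unit_mul (Polynomial.isUnit_C.2 hg.isUnit)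
  rw [separable_prod_X_sub_C_iff']
  intro x _ y _ h
  have := inv_injective h
  exact sub_left_injective this

theorem hypFix_conj {f : OnePoint ℂ → OnePoint ℂ} (hf : HypFix f) (h : OnePoint ℂ ≃ₜ OnePoint ℂ) :
    HypFix (fun z => h.symm (f (h z))) := by
  have hit : ∀ (k : ℕ) (z : OnePoint ℂ), (fun z => h.symm (f (h z)))^[k] z = h.symm (f^[k] (h z)) := by
    intro k
    induction k with
    | zero => intro z; simp
    | succ k ih =>
      intro z
      rw [Function.iterate_succ_apply', Function.iterate_succ_apply', ih]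
      simp
  intro c hc
  have hc' : ¬ ∃ U ∈ 𝓝 (h c), InjOn f U := by
    rintro ⟨U, hU, hinj⟩
    apply hc
    refine ⟨h ⁻¹' U, h.continuous.continuousAt.preimage_mem_nhds hU, ?_⟩
    intro x hx y hy hxy
    have h1 : f (h x) = f (h y) := h.symm.injective hxy
    exact h.injective (hinj hx hy h1)
  obtain ⟨z, hz1, ⟨U, hU, hU2⟩, hz3⟩ := hf (h c) hc'
  refine ⟨h.symm z, ?_, ⟨h ⁻¹' U, ?_, ?_⟩, ?_⟩
  · simp only [Homeomorph.apply_symm_apply]
    rw [hz1]
  · apply h.continuous.continuousAt.preimage_mem_nhds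
    rw [h.apply_symm_apply]
    exact hU
  · intro w hw
    have h1 := (h.symm.continuous.tendsto z).comp (hU2 (h w) hw)
    apply h1.congr
    intro k
    rw [hit]
    rfl
  · have h1 := (h.symm.continuous.tendsto z).comp hz3
    apply h1.congr
    intro k
    rw [hit]
    rfl

theorem conj_pair {d : ℕ} (hd : 1 ≤ d) {b : ℂ} {P Q P' Q' : ℂ[X]} (hH : HypPair d P' Q')
    (e1 : ∀ w : ℂ, w ≠ 0 → P'.eval w = w ^ d * Q.eval (b + w⁻¹))
    (e2 : ∀ w : ℂ, w ≠ 0 → Q'.eval w = w ^ d * (P.eval (b + w⁻¹) - b * Q.eval (b + w⁻¹)))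
    (hQb : Q.eval b ≠ 0) (hdeg : max P.natDegree Q.natDegree = d) : HypPair d P Q := by
  obtain ⟨hcop, -, f, hf, hfv, hfix⟩ := hH
  -- coprimality
  have hno : ∀ z : ℂ, ¬ (P.eval z = 0 ∧ Q.eval z = 0) := by
    rintro z ⟨h1, h2⟩
    have hzb : z ≠ b := by
      rintro rfl
      exact hQb h2
    have hw : (z - b)⁻¹ ≠ 0 := inv_ne_zero (sub_ne_zero.2 hzb)
    have hz : b + ((z - b)⁻¹)⁻¹ = z := by rw [inv_inv]; ring
    obtain ⟨u, v, huv⟩ := hcop
    have h3 := congrArg (Polynomial.eval (z - b)⁻¹) huv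
    rw [eval_add, eval_mul, eval_mul, e1 _ hw, e2 _ hw, hz, h1, h2] at h3
    simp at h3
  have hcop' : IsCoprime P Q := by
    rw [isCoprime_iff_aeval_ne_zero_of_isAlgClosed ℂ ℂ]
    intro a
    by_contra hcon
    push Not at hcon
    rw [coe_aeval_eq_eval] at hcon
    exact hno a hcon
  refine ⟨hcop', hdeg, ?_⟩
  have hdet : (0 : ℂ) * (-b) - 1 * 1 ≠ 0 := by norm_num
  obtain ⟨h, hh, -⟩ := (MOB SP) 0 1 1 (-b) hdet
  have hhz : ∀ z : ℂ, z ≠ b → h (z : OnePoint ℂ) = ((z - b)⁻¹ : ℂ) := by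
    intro z hz
    have h1 := hh (z, 1) (by simp)
    have h2 : pr ((z, 1) : ℂ × ℂ) = (z : OnePoint ℂ) := by
      unfold pr
      simp
    rw [h2] at h1
    rw [h1]
    have h3 : z - b ≠ 0 := sub_ne_zero.2 hz
    unfold pr
    simp only [zero_mul, one_mul, zero_add, mul_one]
    rw [if_neg (by rw [← sub_eq_add_neg]; exact h3), one_div, ← sub_eq_add_neg]
  refine ⟨fun z => h.symm (f (h z)), h.symm.continuous.comp (hf.comp h.continuous), ?_,
    hypFix_conj hfix h⟩
  -- the values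
  set K : ℂ[X] := P - Polynomial.C b * Q with hK
  have hKev : ∀ z, K.eval z = P.eval z - b * Q.eval z := fun z => by simp [hK]
  have hK0 : K ≠ 0 := by
    intro h0
    have h1 : P = Polynomial.C b * Q := sub_eq_zero.1 h0
    have h2 : IsUnit Q := by
      rw [h1] at hcop'
      exact isUnit_of_dvd_unit (dvd_refl Q) (hcop'.isUnit_of_dvd' (dvd_mul_left _ _) (dvd_refl _))
    have h3 : Q.natDegree = 0 := natDegree_eq_zero_of_isUnit h2
    have h4 : P.natDegree = 0 := by
      rw [h1]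
      have := natDegree_C_mul_le b Q
      omega
    rw [h3, h4] at hdeg
    simp at hdeg
    omega
  have hgood : ∀ z : ℂ, Q.eval z ≠ 0 → K.eval z ≠ 0 → z ≠ b →
      h.symm (f (h (z : OnePoint ℂ))) = ((P.eval z / Q.eval z : ℂ) : OnePoint ℂ) := by
    intro z hQz hKz hzb
    have hw : (z - b)⁻¹ ≠ 0 := inv_ne_zero (sub_ne_zero.2 hzb)
    have hz : b + ((z - b)⁻¹)⁻¹ = z := by rw [inv_inv]; ring
    rw [hKev] at hKz
    have h1 : P.eval z / Q.eval z ≠ b := by
      intro h2
      apply hKz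
      rw [div_eq_iff hQz] at h2
      rw [h2, sub_self]
    have h2 : Q'.eval (z - b)⁻¹ ≠ 0 := by
      rw [e2 _ hw, hz]
      exact mul_ne_zero (pow_ne_zero _ hw) hKz
    have h3 : f (h (z : OnePoint ℂ)) = h ((P.eval z / Q.eval z : ℂ) : OnePoint ℂ) := by
      rw [hhz z hzb, hhz _ h1, hfv _ h2, e1 _ hw, e2 _ hw, hz]
      congr 1
      have : (z - b)⁻¹ ^ d ≠ 0 := pow_ne_zero _ hw
      field_simp
    rw [h3, h.symm_apply_apply]
  intro z hQz
  have hc1 : ContinuousAt (fun z : ℂ => h.symm (f (h (z : OnePoint ℂ)))) z :=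
    (h.symm.continuous.comp (hf.comp (h.continuous.comp OnePoint.continuous_coe))).continuousAt
  have hc2 : ContinuousAt (fun z : ℂ => ((P.eval z / Q.eval z : ℂ) : OnePoint ℂ)) z := by
    apply ContinuousAt.comp (g := fun z : ℂ => (z : OnePoint ℂ)) OnePoint.continuous_coe.continuousAt
    exact P.continuous.continuousAt.div Q.continuous.continuousAt hQz
  have hev : ∀ᶠ y : ℂ in 𝓝[≠] z, h.symm (f (h (y : OnePoint ℂ))) =
      ((P.eval y / Q.eval y : ℂ) : OnePoint ℂ) := by
    have e3 : ∀ᶠ y : ℂ in 𝓝[≠] z, Q.eval y ≠ 0 :=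
      nhdsWithin_le_nhds (Q.continuous.continuousAt.eventually_ne hQz)
    have e4 : ∀ᶠ y : ℂ in 𝓝[≠] z, (K * (Polynomial.X - Polynomial.C b)).eval y ≠ 0 := by
      have h5 : K * (Polynomial.X - Polynomial.C b) ≠ 0 := mul_ne_zero hK0 (X_sub_C_ne_zero b)
      have h7 : (((K * (Polynomial.X - Polynomial.C b)).roots.toFinset : Set ℂ) \ {z}).Finite :=
        (Finset.finite_toSet _).subset sdiff_subset
      have h8 := h7.isClosed.isOpen_compl.mem_nhds
        (show z ∈ (((K * (Polynomial.X - Polynomial.C b)).roots.toFinset : Set ℂ) \ {z})ᶜ from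
          fun h9 => h9.2 rfl)
      filter_upwards [nhdsWithin_le_nhds h8, self_mem_nhdsWithin] with y hy hy2 h9
      apply hy
      refine ⟨?_, hy2⟩
      rw [Finset.mem_coe, Multiset.mem_toFinset, mem_roots h5, IsRoot.def]
      exact h9
    filter_upwards [e3, e4] with y h5 h6
    rw [eval_mul, mul_ne_zero_iff, eval_sub (p := Polynomial.X), eval_X, eval_C] at h6
    exact hgood y h5 h6.1 (sub_ne_zero.1 h6.2)
  exact tendsto_nhds_unique_of_eventuallyEq (hc1.tendsto.mono_left nhdsWithin_le_nhds)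
    (hc2.tendsto.mono_left nhdsWithin_le_nhds) hev

end Pool.Agent.Helper65.EU
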