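import Mathlib
import Pool.Agent.Helper65.EU.Defs

/-! Open certificates of hyperbolicity. -/

set_option autoImplicit false

open Topology Filter Metric Set MeasureTheory Polynomial
open scoped Real NNReal OnePoint

namespace Pool.Agent.Helper65.EU

open Pool.Agent.H790R3.RB

/-- the vector `c` represents a point of one of the discs -/
def Into (s : Finset (ℂ × ℝ)) (c : ℂ × ℂ) : Prop := ∃ i ∈ s, ‖c.1 - i.1 * c.2‖ < i.2 * ‖c.2‖

/-- an open condition which implies hyperbolicity -/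
def Cert {d : ℕ} (s : Finset (ℂ × ℝ)) (x : CV d) : Prop :=
  (∀ c ∈ sphere (0 : ℂ × ℂ) 1, hF x c ≠ 0) ∧
  (∀ i ∈ s, ∀ z ∈ closedBall i.1 i.2,
    ‖(hF x (z, 1)).1 - i.1 * (hF x (z, 1)).2‖ < i.2 * ‖(hF x (z, 1)).2‖ ∧
    ‖wr x (z, 1)‖ < d * ‖(hF x (z, 1)).2‖ ^ 2) ∧
  (∀ c ∈ sphere (0 : ℂ × ℂ) 1, wr x c = 0 → ∃ k : ℕ, Into s ((hF x)^[k] c))

theorem isOpen_cert {d : ℕ} (s : Finset (ℂ × ℝ)) : IsOpen {x : CV d | Cert s x} := by
  rw [isOpen_iff_mem_nhds]
  rintro x ⟨h1, h2, h3⟩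
  have hFc : Continuous (fun q : CV d × (ℂ × ℂ) => hF q.1 q.2) := (hF_contDiff d 1).continuous
  have hwc : Continuous (fun q : CV d × (ℂ × ℂ) => wr q.1 q.2) := (wr_contDiff d 1).continuous
  have e1 : ∀ᶠ y in 𝓝 x, ∀ c ∈ sphere (0 : ℂ × ℂ) 1, hF y c ≠ 0 := by
    apply IsCompact.eventually_forall_of_forall_eventually (isCompact_sphere _ _)
    intro c hc
    exact (hFc.continuousAt (x := (x, c))).eventually_ne (h1 c hc)
  have e2 : ∀ᶠ y in 𝓝 x, ∀ i ∈ s, ∀ z ∈ closedBall i.1 i.2,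
      ‖(hF y (z, 1)).1 - i.1 * (hF y (z, 1)).2‖ < i.2 * ‖(hF y (z, 1)).2‖ ∧
      ‖wr y (z, 1)‖ < d * ‖(hF y (z, 1)).2‖ ^ 2 := by
    rw [Filter.eventually_all_finset]
    intro i hi
    apply IsCompact.eventually_forall_of_forall_eventually (isCompact_closedBall _ _)
    intro z hz
    have c0 : Continuous (fun q : CV d × ℂ => (q.1, ((q.2, 1) : ℂ × ℂ))) := by fun_prop
    have c1 : Continuous (fun q : CV d × ℂ => hF q.1 (q.2, 1)) := hFc.comp c0
    have c2 : Continuous (fun q : CV d × ℂ => wr q.1 (q.2, 1)) := hwc.comp c0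
    have c3 : Continuous (fun q : CV d × ℂ =>
        ‖(hF q.1 (q.2, 1)).1 - i.1 * (hF q.1 (q.2, 1)).2‖) :=
      (c1.fst.sub (continuous_const.mul c1.snd)).norm
    have c4 : Continuous (fun q : CV d × ℂ => i.2 * ‖(hF q.1 (q.2, 1)).2‖) :=
      continuous_const.mul c1.snd.norm
    have c5 : Continuous (fun q : CV d × ℂ => (d : ℝ) * ‖(hF q.1 (q.2, 1)).2‖ ^ 2) :=
      continuous_const.mul (c1.snd.norm.pow 2)
    have hz1 := h2 i hi z hz
    have o1 : (x, z) ∈ {q : CV d × ℂ | ‖(hF q.1 (q.2, 1)).1 - i.1 * (hF q.1 (q.2, 1)).2‖ <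
        i.2 * ‖(hF q.1 (q.2, 1)).2‖} := hz1.1
    have o2 : (x, z) ∈ {q : CV d × ℂ | ‖wr q.1 (q.2, 1)‖ <
        (d : ℝ) * ‖(hF q.1 (q.2, 1)).2‖ ^ 2} := hz1.2
    filter_upwards [(isOpen_lt c3 c4).mem_nhds o1, (isOpen_lt c2.norm c5).mem_nhds o2]
      with q hq1 hq2
    exact ⟨hq1, hq2⟩
  have e3 : ∀ᶠ y in 𝓝 x, ∀ c ∈ sphere (0 : ℂ × ℂ) 1, wr y c = 0 →
      ∃ k : ℕ, Into s ((hF y)^[k] c) := by
    apply IsCompact.eventually_forall_of_forall_eventually (isCompact_sphere _ _)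
    intro c hc
    by_cases hw : wr x c = 0
    · obtain ⟨k, i, hi, hk⟩ := h3 c hc hw
      have c1 := hF_iter_continuous d k
      have c3 : Continuous (fun q : CV d × (ℂ × ℂ) =>
          ‖((hF q.1)^[k] q.2).1 - i.1 * ((hF q.1)^[k] q.2).2‖) :=
        (c1.fst.sub (continuous_const.mul c1.snd)).norm
      have c4 : Continuous (fun q : CV d × (ℂ × ℂ) => i.2 * ‖((hF q.1)^[k] q.2).2‖) :=
        continuous_const.mul c1.snd.norm
      have o1 : (x, c) ∈ {q : CV d × (ℂ × ℂ) | ‖((hF q.1)^[k] q.2).1 -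
          i.1 * ((hF q.1)^[k] q.2).2‖ < i.2 * ‖((hF q.1)^[k] q.2).2‖} := hk
      filter_upwards [(isOpen_lt c3 c4).mem_nhds o1] with q hq _
      exact ⟨k, i, hi, hq⟩
    · filter_upwards [(hwc.continuousAt (x := (x, c))).eventually_ne hw] with q hq hq2
      exact absurd hq2 hq
  filter_upwards [e1, e2, e3] with y h1 h2 h3
  exact ⟨h1, h2, h3⟩

theorem ND_of_sphere {d : ℕ} {x : CV d} (h : ∀ c ∈ sphere (0 : ℂ × ℂ) 1, hF x c ≠ 0) : ND x := by
  intro p hp
  by_contra hp0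
  have hn : ‖p‖ ≠ 0 := norm_ne_zero_iff.2 hp0
  apply h (((‖p‖⁻¹ : ℝ) : ℂ) • p)
  · rw [mem_sphere_zero_iff_norm, norm_smul, Complex.norm_real, norm_inv, norm_norm,
      inv_mul_cancel₀ hn]
  · rw [hF_smul, hp, smul_zero]

theorem wr_smul_zero {d : ℕ} (hd : 2 ≤ d) {x : CV d} {p : ℂ × ℂ} (a : ℂ) (h : wr x p = 0) :
    wr x (a • p) = 0 := by
  rw [(WR d x hd).1, h, mul_zero]

/-- the attracting discs -/
theorem disc_attr {d : ℕ} (hd : 2 ≤ d) {x : CV d} {p : ℂ} {ρ : ℝ}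
    (h : ∀ z ∈ closedBall p ρ, ‖(hF x (z, 1)).1 - p * (hF x (z, 1)).2‖ < ρ * ‖(hF x (z, 1)).2‖ ∧
      ‖wr x (z, 1)‖ < d * ‖(hF x (z, 1)).2‖ ^ 2) (hρ : 0 < ρ) :
    ∃ a ∈ ball p ρ, sp x (a : OnePoint ℂ) = a ∧ ∀ z ∈ closedBall p ρ,
      Tendsto (fun k : ℕ => (sp x)^[k] (z : OnePoint ℂ)) atTop (𝓝 (a : OnePoint ℂ)) := by
  set P := pol x 0 with hP
  set Q := pol x 1 with hQ
  have hd0 : (0 : ℝ) < d := by exact_mod_cast (by omega : 0 < d)
  have hQz : ∀ z ∈ closedBall p ρ, Q.eval z ≠ 0 := by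
    intro z hz h0
    have h1 := (h z hz).1
    rw [PQ.hF_one] at h1
    simp only [← hQ, h0, norm_zero, mul_zero] at h1
    exact absurd h1 (not_lt.2 (norm_nonneg _))
  have hmap : ∀ z ∈ closedBall p ρ, ‖P.eval z / Q.eval z - p‖ < ρ := by
    intro z hz
    have h1 := (h z hz).1
    rw [PQ.hF_one] at h1
    simp only [← hQ, ← hP] at h1
    have h2 : P.eval z / Q.eval z - p = (P.eval z - p * Q.eval z) / Q.eval z := by
      have := hQz z hz
      field_simp
    rw [h2, norm_div, div_lt_iff₀ (norm_pos_iff.2 (hQz z hz))]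
    exact h1
  set f : ℂ → ℂ := fun z => P.eval z / Q.eval z with hf
  have hder : ∀ z ∈ closedBall p ρ, HasDerivAt f (((derivative P).eval z * Q.eval z -
      P.eval z * (derivative Q).eval z) / Q.eval z ^ 2) z := fun z hz =>
    (P.hasDerivAt z).div (Q.hasDerivAt z) (hQz z hz)
  have hlt : ∀ z ∈ closedBall p ρ, ‖((derivative P).eval z * Q.eval z -
      P.eval z * (derivative Q).eval z) / Q.eval z ^ 2‖ < 1 := by
    intro z hz
    have h1 := (h z hz).2
    rw [Pool.Agent.W364.NM.wr_eval hd, PQ.hF_one, norm_mul, Complex.norm_natCast] at h1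
    rw [norm_div, norm_pow, div_lt_one (by have := norm_pos_iff.2 (hQz z hz); positivity)]
    exact lt_of_mul_lt_mul_left h1 hd0.le
  -- the contraction constant
  have hcont : ContinuousOn (fun z => ‖((derivative P).eval z * Q.eval z -
      P.eval z * (derivative Q).eval z) / Q.eval z ^ 2‖) (closedBall p ρ) := by
    apply ContinuousOn.norm
    apply ContinuousOn.div
    · exact (((derivative P).continuous.mul Q.continuous).sub
        (P.continuous.mul (derivative Q).continuous)).continuousOn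
    · exact (Q.continuous.pow 2).continuousOn
    · intro z hz
      exact pow_ne_zero _ (hQz z hz)
  obtain ⟨z0, hz0, hmax⟩ := (isCompact_closedBall p ρ).exists_isMaxOn
    ⟨p, mem_closedBall_self hρ.le⟩ hcont
  set K : ℝ≥0 := ⟨‖((derivative P).eval z0 * Q.eval z0 -
      P.eval z0 * (derivative Q).eval z0) / Q.eval z0 ^ 2‖, norm_nonneg _⟩ with hK
  have hK1 : K < 1 := by
    rw [← NNReal.coe_lt_coe]
    exact hlt z0 hz0
  have hmapsTo : MapsTo f (closedBall p ρ) (closedBall p ρ) := by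
    intro z hz
    rw [mem_closedBall, dist_eq_norm]
    exact (hmap z hz).le
  have hlip : LipschitzOnWith K f (closedBall p ρ) := by
    apply (convex_closedBall p ρ).lipschitzOnWith_of_nnnorm_hasDerivWithin_le
      (f' := fun z => ((derivative P).eval z * Q.eval z -
        P.eval z * (derivative Q).eval z) / Q.eval z ^ 2)
    · intro z hz
      exact (hder z hz).hasDerivWithinAt
    · intro z hz
      rw [← NNReal.coe_le_coe]
      exact hmax hz
  have hcw : ContractingWith K (hmapsTo.restrict f (closedBall p ρ) (closedBall p ρ)) :=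
    ⟨hK1, hlip.mapsToRestrict hmapsTo⟩
  obtain ⟨a, ha, hfix, -, -⟩ := ContractingWith.exists_fixedPoint' isClosed_closedBall.isComplete
    hmapsTo hcw (mem_closedBall_self (x := p) hρ.le) (edist_ne_top _ _)
  have hfa : f a = a := hfix
  have hab : a ∈ ball p ρ := by
    rw [mem_ball, dist_eq_norm, ← hfa]
    exact hmap a ha
  have hspf : ∀ z ∈ closedBall p ρ, sp x (z : OnePoint ℂ) = (f z : OnePoint ℂ) := fun z hz =>
    PQ.sp_eval x z (hQz z hz)
  have hin : ∀ z ∈ closedBall p ρ, ∀ k : ℕ, f^[k] z ∈ closedBall p ρ := by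
    intro z hz k
    induction k with
    | zero => exact hz
    | succ k ih => rw [Function.iterate_succ_apply']; exact hmapsTo ih
  have hiter : ∀ z ∈ closedBall p ρ, ∀ k : ℕ, (sp x)^[k] (z : OnePoint ℂ) = (f^[k] z : ℂ) := by
    intro z hz k
    induction k with
    | zero => rfl
    | succ k ih => rw [Function.iterate_succ_apply', Function.iterate_succ_apply', ih,
        hspf _ (hin z hz k)]
  refine ⟨a, hab, by rw [hspf a ha, hfa], ?_⟩
  intro z hz
  have e1 : (fun k : ℕ => (sp x)^[k] (z : OnePoint ℂ)) = fun k => ((f^[k] z : ℂ) : OnePoint ℂ) :=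
    funext fun k => hiter z hz k
  rw [e1]
  apply (OnePoint.continuous_coe.tendsto a).comp
  have h2 : ∀ k : ℕ, ‖f^[k] z - a‖ ≤ K ^ k * ‖z - a‖ := by
    intro k
    induction k with
    | zero => simp
    | succ k ih =>
      rw [Function.iterate_succ_apply']
      have h3 := hlip.dist_le_mul _ (hin z hz k) _ ha
      rw [hfa, dist_eq_norm, dist_eq_norm] at h3
      calc ‖f (f^[k] z) - a‖ ≤ K * ‖f^[k] z - a‖ := h3
        _ ≤ K * (K ^ k * ‖z - a‖) := mul_le_mul_of_nonneg_left ih K.2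
        _ = _ := by ring
  rw [tendsto_iff_norm_sub_tendsto_zero]
  have h4 : Tendsto (fun k : ℕ => (K : ℝ) ^ k * ‖z - a‖) atTop (𝓝 (0 * ‖z - a‖)) :=
    (tendsto_pow_atTop_nhds_zero_of_lt_one K.2 (by exact_mod_cast hK1)).mul_const _
  rw [zero_mul] at h4
  exact squeeze_zero (fun k => norm_nonneg _) h2 h4

theorem Cert.hypFix {d : ℕ} (hd : 2 ≤ d) {s : Finset (ℂ × ℝ)} {x : CV d} (h : Cert s x) :
    ND x ∧ HypFix (sp x) := by
  obtain ⟨h1, h2, h3⟩ := h
  have hND := ND_of_sphere h1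
  refine ⟨hND, ?_⟩
  intro c hc
  have hSP := SP d x (by omega) hND
  obtain ⟨hpc, hc0⟩ := hSP.2.2.2.1 c
  have hwr : wr x (Pool.Agent.H790R3.RB.hc c) = 0 := by
    by_contra h
    apply hc
    have := INJL SP WR d x _ hd hND hc0 h
    rwa [hpc] at this
  set p := Pool.Agent.H790R3.RB.hc c with hp
  have hn : ‖p‖ ≠ 0 := norm_ne_zero_iff.2 hc0
  set a : ℂ := ((‖p‖⁻¹ : ℝ) : ℂ) with ha
  have ha0 : a ≠ 0 := by
    rw [ha, Complex.ofReal_ne_zero]
    exact inv_ne_zero hn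
  have hsph : a • p ∈ sphere (0 : ℂ × ℂ) 1 := by
    rw [mem_sphere_zero_iff_norm, norm_smul, Complex.norm_real, norm_inv, norm_norm,
      inv_mul_cancel₀ hn]
  obtain ⟨k, i, hi, hk⟩ := h3 _ hsph (wr_smul_zero hd a hwr)
  set q := (hF x)^[k] (a • p) with hq
  have hq2 : 0 < i.2 * ‖q.2‖ := lt_of_le_of_lt (norm_nonneg _) hk
  have hq20 : q.2 ≠ 0 := by
    intro h0
    rw [h0, norm_zero, mul_zero] at hq2
    exact lt_irrefl _ hq2
  have hρ : 0 < i.2 := pos_of_mul_pos_left hq2 (norm_nonneg _)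
  have hspk : (sp x)^[k] c = ((q.1 / q.2 : ℂ) : OnePoint ℂ) := by
    have e1 := hSP.2.1 (a • p) (smul_ne_zero ha0 hc0) k
    rw [Pool.Agent.W364.NM.pr_csmul ha0, hpc] at e1
    rw [e1, ← hq]
    exact Pool.Agent.H790R3.RB.SP.pr_ne hq20
  have hz : q.1 / q.2 ∈ ball i.1 i.2 := by
    rw [mem_ball, dist_eq_norm]
    have : q.1 / q.2 - i.1 = (q.1 - i.1 * q.2) / q.2 := by field_simp
    rw [this, norm_div, div_lt_iff₀ (norm_pos_iff.2 hq20)]
    exact hk
  obtain ⟨b, hb, hfb, hatt⟩ := disc_attr hd (h2 i hi) hρ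
  refine ⟨(b : OnePoint ℂ), hfb, ⟨(fun z : ℂ => (z : OnePoint ℂ)) '' ball i.1 i.2,
    (OnePoint.isOpenEmbedding_coe.isOpenMap _ isOpen_ball).mem_nhds ⟨b, hb, rfl⟩, ?_⟩, ?_⟩
  · rintro _ ⟨w, hw, rfl⟩
    exact hatt w (ball_subset_closedBall hw)
  · rw [← tendsto_add_atTop_iff_nat k]
    have h5 := hatt _ (ball_subset_closedBall hz)
    apply h5.congr
    intro m
    rw [Function.iterate_add_apply, hspk]

end Pool.Agent.Helper65.EU
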