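import Mathlib
import Pool.Agent.Helper65.EU.Robust
import Pool.Graph.R_seed8.Helper540.Osgood

/-! A rational map all of whose critical points converge to attracting fixed points satisfies
an open certificate. -/

set_option autoImplicit false

open Topology Filter Metric Set MeasureTheory Polynomial
open scoped Real NNReal OnePoint

namespace Pool.Agent.Helper65.EU

open Pool.Agent.H790R3.RB

theorem sp_coe {d : ℕ} (x : CV d) (z : ℂ) : sp x (z : OnePoint ℂ) = pr (hF x (z, 1)) := rfl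

/-- zeros of the Jacobian determinant are points of non-injectivity -/
theorem not_inj {d : ℕ} (hd : 2 ≤ d) {x : CV d} (hx : ND x) {z : ℂ} (hw : wr x (z, 1) = 0) :
    ¬ ∃ U ∈ 𝓝 (z : OnePoint ℂ), InjOn (sp x) U := by
  rintro ⟨U, hU, hinj⟩
  set P := pol x 0 with hP
  set Q := pol x 1 with hQ
  have hd0 : (d : ℂ) ≠ 0 := by exact_mod_cast (by omega : d ≠ 0)
  have hW : (derivative P).eval z * Q.eval z - P.eval z * (derivative Q).eval z = 0 := by
    rw [Pool.Agent.W364.NM.wr_eval hd] at hw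
    exact (mul_eq_zero.1 hw).resolve_left hd0
  have hU' : ∀ᶠ w : ℂ in 𝓝 z, (w : OnePoint ℂ) ∈ U := (OnePoint.continuous_coe.tendsto z) hU
  have hne : ∀ w : ℂ, hF x (w, 1) ≠ 0 := fun w h => by
    have := congrArg Prod.snd (hx _ h)
    simp at this
  have hcoe : ∀ a b : ℂ, (a : OnePoint ℂ) ∈ U → (b : OnePoint ℂ) ∈ U →
      P.eval a * Q.eval b - Q.eval a * P.eval b = 0 → a = b := by
    intro a b ha hb h
    have h1 : sp x (a : OnePoint ℂ) = sp x (b : OnePoint ℂ) := by
      rw [sp_coe, sp_coe, Pool.Agent.H790R3.RB.SP.pr_eq_iff (hne a) (hne b)]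
      unfold cr
      rw [PQ.hF_one, PQ.hF_one]
      exact h
    exact OnePoint.coe_injective (hinj ha hb h1)
  by_cases hQz : Q.eval z = 0
  · have hPz : P.eval z ≠ 0 := by
      intro h
      apply hne z
      rw [PQ.hF_one, ← hP, ← hQ, h, hQz]
      rfl
    obtain ⟨ε, hε, hb⟩ := Metric.eventually_nhds_iff_ball.1
      (hU'.and (P.continuous.continuousAt.eventually_ne hPz))
    have hd1 : DifferentiableOn ℂ (fun w => Q.eval w / P.eval w) (ball z ε) := by
      intro w hw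
      exact (Q.differentiableAt.div P.differentiableAt (hb w hw).2).differentiableWithinAt
    have hi : InjOn (fun w => Q.eval w / P.eval w) (ball z ε) := by
      intro a ha b hb' hab
      apply hcoe a b (hb a ha).1 (hb b hb').1
      have h1 := (hb a ha).2
      have h2 := (hb b hb').2
      simp only at hab
      rw [div_eq_div_iff h1 h2] at hab
      linear_combination -hab
    apply Pool.Agent.Helper540.deriv_ne_zero_of_injOn isOpen_ball hd1 hi (mem_ball_self hε)
    have hdd : HasDerivAt (fun w => Q.eval w / P.eval w) (((derivative Q).eval z * P.eval z -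
        Q.eval z * (derivative P).eval z) / P.eval z ^ 2) z :=
      (Q.hasDerivAt z).div (P.hasDerivAt z) hPz
    rw [hdd.deriv]
    have : (derivative Q).eval z * P.eval z - Q.eval z * (derivative P).eval z = 0 := by
      linear_combination -hW
    rw [this, zero_div]
  · obtain ⟨ε, hε, hb⟩ := Metric.eventually_nhds_iff_ball.1
      (hU'.and (Q.continuous.continuousAt.eventually_ne hQz))
    have hd1 : DifferentiableOn ℂ (fun w => P.eval w / Q.eval w) (ball z ε) := by
      intro w hw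
      exact (P.differentiableAt.div Q.differentiableAt (hb w hw).2).differentiableWithinAt
    have hi : InjOn (fun w => P.eval w / Q.eval w) (ball z ε) := by
      intro a ha b hb' hab
      apply hcoe a b (hb a ha).1 (hb b hb').1
      have h1 := (hb a ha).2
      have h2 := (hb b hb').2
      simp only at hab
      rw [div_eq_div_iff h1 h2] at hab
      linear_combination hab
    apply Pool.Agent.Helper540.deriv_ne_zero_of_injOn isOpen_ball hd1 hi (mem_ball_self hε)
    have hdd : HasDerivAt (fun w => P.eval w / Q.eval w) (((derivative P).eval z * Q.eval z -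
        P.eval z * (derivative Q).eval z) / Q.eval z ^ 2) z :=
      (P.hasDerivAt z).div (Q.hasDerivAt z) hQz
    rw [hdd.deriv, hW, zero_div]

theorem fibre_finite {d : ℕ} (hd : 1 ≤ d) {x : CV d} (hx : ND x) (w : OnePoint ℂ) :
    {z : OnePoint ℂ | sp x z = w}.Finite := by
  obtain ⟨hcop, hmax⟩ := PQ.part1 hd x hx
  set P := pol x 0 with hP
  set Q := pol x 1 with hQ
  obtain ⟨hpw, hp0⟩ := Pool.Agent.H790R3.RB.SP.pr_hc w
  set p := Pool.Agent.H790R3.RB.hc w with hp
  set G : ℂ[X] := P * Polynomial.C p.2 - Q * Polynomial.C p.1 with hG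
  have hG0 : G ≠ 0 := by
    intro h0
    obtain ⟨u, v, huv⟩ := hcop
    set h := u * Polynomial.C p.1 + v * Polynomial.C p.2 with hh
    have e0 : P * Polynomial.C p.2 = Q * Polynomial.C p.1 := sub_eq_zero.1 h0
    have e1 : Q * h = Polynomial.C p.2 := by
      rw [hh]
      linear_combination Polynomial.C p.2 * huv - u * e0
    have e2 : P * h = Polynomial.C p.1 := by
      rw [hh]
      linear_combination Polynomial.C p.1 * huv + v * e0
    have hh0 : h ≠ 0 := by
      intro h00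
      rw [h00, mul_zero] at e1 e2
      apply hp0
      apply Prod.ext
      · exact (Polynomial.C_eq_zero.1 e2.symm)
      · exact (Polynomial.C_eq_zero.1 e1.symm)
    have hdeg : ∀ (A : ℂ[X]) (c : ℂ), A * h = Polynomial.C c → A.natDegree = 0 := by
      intro A c hA
      by_cases hA0 : A = 0
      · rw [hA0, natDegree_zero]
      · have := congrArg natDegree hA
        rw [natDegree_mul hA0 hh0, natDegree_C] at this
        omega
    rw [hdeg P _ e2, hdeg Q _ e1] at hmax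
    simp at hmax
    omega
  have hsub : {z : OnePoint ℂ | sp x z = w} ⊆
      {∞} ∪ (fun z : ℂ => (z : OnePoint ℂ)) '' (G.roots.toFinset : Set ℂ) := by
    intro z hz
    induction z using OnePoint.rec with
    | infty => left; rfl
    | coe z =>
      right
      refine ⟨z, ?_, rfl⟩
      rw [Finset.mem_coe, Multiset.mem_toFinset, mem_roots hG0, IsRoot.def]
      have h1 : sp x (z : OnePoint ℂ) = w := hz
      have hne : hF x (z, 1) ≠ 0 := fun h => by
        have := congrArg Prod.snd (hx _ h)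
        simp at this
      rw [sp_coe, ← hpw, Pool.Agent.H790R3.RB.SP.pr_eq_iff hne hp0, PQ.hF_one] at h1
      unfold cr at h1
      rw [hG, eval_sub, eval_mul, eval_mul, eval_C, eval_C]
      exact h1
  exact ((Set.finite_singleton _).union ((Finset.finite_toSet _).image _)).subset hsub

theorem back_countable {d : ℕ} (hd : 1 ≤ d) {x : CV d} (hx : ND x) (w : OnePoint ℂ) (k : ℕ) :
    {z : OnePoint ℂ | (sp x)^[k] z = w}.Countable := by
  induction k with
  | zero => simp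
  | succ k ih =>
    have : {z : OnePoint ℂ | (sp x)^[k + 1] z = w} =
        ⋃ v ∈ {z : OnePoint ℂ | (sp x)^[k] z = w}, {z | sp x z = v} := by
      ext z
      simp only [mem_ofPred_eq, mem_iUnion, exists_prop, Function.iterate_succ_apply]
      constructor
      · intro h
        exact ⟨_, h, rfl⟩
      · rintro ⟨v, hv, rfl⟩
        exact hv
    rw [this]
    exact ih.biUnion fun v _ => (fibre_finite hd hx v).countable

theorem fix_fin {d : ℕ} {x : CV d} {p : ℂ} (hfix : sp x (p : OnePoint ℂ) = p) :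
    (pol x 1).eval p ≠ 0 ∧ (pol x 0).eval p / (pol x 1).eval p = p := by
  have h1 : (pol x 1).eval p ≠ 0 := by
    intro h
    rw [sp_coe, PQ.hF_one, Pool.Agent.H790R3.RB.SP.pr_zero h] at hfix
    exact OnePoint.infty_ne_coe _ hfix
  refine ⟨h1, ?_⟩
  rw [PQ.sp_eval x p h1] at hfix
  exact OnePoint.coe_injective hfix

theorem mult_le {d : ℕ} (hd : 2 ≤ d) {x : CV d} (hx : ND x) {p : ℂ}
    (hfix : sp x (p : OnePoint ℂ) = p)
    (hatt : ∃ U ∈ 𝓝 (p : OnePoint ℂ), ∀ w ∈ U,
      Tendsto (fun k : ℕ => (sp x)^[k] w) atTop (𝓝 (p : OnePoint ℂ))) :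
    ‖wr x (p, 1)‖ ≤ d * ‖(hF x (p, 1)).2‖ ^ 2 := by
  by_contra hcon
  push Not at hcon
  obtain ⟨hQp, hPQ⟩ := fix_fin hfix
  set P := pol x 0 with hP
  set Q := pol x 1 with hQ
  have hd0 : (0 : ℝ) < d := by exact_mod_cast (by omega : 0 < d)
  set lam := ((derivative P).eval p * Q.eval p - P.eval p * (derivative Q).eval p) /
    Q.eval p ^ 2 with hlam
  have hl1 : 1 < ‖lam‖ := by
    rw [Pool.Agent.W364.NM.wr_eval hd, PQ.hF_one, norm_mul, Complex.norm_natCast] at hcon
    rw [hlam, norm_div, norm_pow, one_lt_div (by have := norm_pos_iff.2 hQp; positivity)]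
    exact lt_of_mul_lt_mul_left hcon hd0.le
  have hder : HasDerivAt (fun z => P.eval z / Q.eval z) lam p :=
    (P.hasDerivAt p).div (Q.hasDerivAt p) hQp
  have hev : ∀ᶠ w in 𝓝 p, Q.eval w ≠ 0 ∧ ‖w - p‖ ≤ ‖P.eval w / Q.eval w - p‖ := by
    have h1 := (hasDerivAt_iff_isLittleO.1 hder).def (sub_pos.2 hl1)
    filter_upwards [h1, Q.continuous.continuousAt.eventually_ne hQp] with w hw hw2
    refine ⟨hw2, ?_⟩
    rw [hPQ, smul_eq_mul] at hw
    have h3 : ‖(w - p) * lam‖ ≤ ‖P.eval w / Q.eval w - p‖ +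
        ‖P.eval w / Q.eval w - p - (w - p) * lam‖ := by
      have : (w - p) * lam = (P.eval w / Q.eval w - p) -
        (P.eval w / Q.eval w - p - (w - p) * lam) := by ring
      calc ‖(w - p) * lam‖ = ‖(P.eval w / Q.eval w - p) -
        (P.eval w / Q.eval w - p - (w - p) * lam)‖ := by rw [← this]
        _ ≤ _ := norm_sub_le _ _
    rw [norm_mul] at h3
    nlinarith [norm_nonneg (w - p)]
  obtain ⟨δ, hδ, hball⟩ := Metric.eventually_nhds_iff_ball.1 hev
  obtain ⟨U, hU, hUa⟩ := hatt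
  have hU' : ∀ᶠ w : ℂ in 𝓝 p, (w : OnePoint ℂ) ∈ U := (OnePoint.continuous_coe.tendsto p) hU
  obtain ⟨ε, hε, hb⟩ := Metric.eventually_nhds_iff_ball.1 hU'
  -- a point which never hits `p`
  have hcount : {w : ℂ | ∃ k : ℕ, (sp x)^[k] (w : OnePoint ℂ) = p}.Countable := by
    have h1 : {w : ℂ | ∃ k : ℕ, (sp x)^[k] (w : OnePoint ℂ) = p} =
        ⋃ k : ℕ, (fun w : ℂ => (w : OnePoint ℂ)) ⁻¹' {z : OnePoint ℂ | (sp x)^[k] z = p} := by
      ext w
      simp
    rw [h1]
    exact countable_iUnion fun k =>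
      (back_countable (by omega) hx _ k).preimage OnePoint.coe_injective
  obtain ⟨w, hw1, hw2⟩ := (hcount.dense_compl ℝ).exists_mem_open isOpen_ball
    ⟨p, mem_ball_self hε⟩
  have hne : ∀ k : ℕ, (sp x)^[k] (w : OnePoint ℂ) ≠ p := fun k hk => hw1 ⟨k, hk⟩
  have hlim := hUa _ (hb w hw2)
  have hcoe : ∀ r : ℝ, 0 < r → ∀ᶠ k : ℕ in atTop, (sp x)^[k] (w : OnePoint ℂ) ∈
      (fun z : ℂ => (z : OnePoint ℂ)) '' ball p r := fun r hr =>
    hlim.eventually_mem ((OnePoint.isOpenEmbedding_coe.isOpenMap _ isOpen_ball).mem_nhds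
      ⟨p, mem_ball_self hr, rfl⟩)
  obtain ⟨K, hK⟩ := eventually_atTop.1 (hcoe δ hδ)
  obtain ⟨u0, hu0, hu0'⟩ := hK K le_rfl
  have hu0p : u0 ≠ p := by
    rintro rfl
    exact hne K hu0'.symm
  have hind : ∀ m : ℕ, ∃ u : ℂ, (sp x)^[K + m] (w : OnePoint ℂ) = u ∧ ‖u0 - p‖ ≤ ‖u - p‖ := by
    intro m
    induction m with
    | zero => exact ⟨u0, hu0'.symm, le_rfl⟩
    | succ m ih =>
      obtain ⟨u, h1, h2⟩ := ih
      obtain ⟨u', h3, h4⟩ := hK (K + m) (by omega)
      simp only at h4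
      have h5 : u' = u := OnePoint.coe_injective (h4.trans h1)
      subst h5
      obtain ⟨h6, h7⟩ := hball u' h3
      refine ⟨P.eval u' / Q.eval u', ?_, h2.trans h7⟩
      have : K + (m + 1) = (K + m) + 1 := by omega
      rw [this, Function.iterate_succ_apply', h1, PQ.sp_eval x u' h6]
  obtain ⟨K2, hK2⟩ := eventually_atTop.1 (hcoe ‖u0 - p‖ (norm_pos_iff.2 (sub_ne_zero.2 hu0p)))
  obtain ⟨u, h1, h2⟩ := hind K2
  obtain ⟨u', h3, h4⟩ := hK2 (K + K2) (by omega)
  simp only at h4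
  have h5 : u' = u := OnePoint.coe_injective (h4.trans h1)
  subst h5
  rw [mem_ball, dist_eq_norm] at h3
  linarith

theorem exists_disc {d : ℕ} (hd : 2 ≤ d) {x : CV d} {p : ℂ}
    (hfix : sp x (p : OnePoint ℂ) = p)
    (hlt : ‖wr x (p, 1)‖ < d * ‖(hF x (p, 1)).2‖ ^ 2) :
    ∃ ρ : ℝ, 0 < ρ ∧ ∀ z ∈ closedBall p ρ,
      ‖(hF x (z, 1)).1 - p * (hF x (z, 1)).2‖ < ρ * ‖(hF x (z, 1)).2‖ ∧
      ‖wr x (z, 1)‖ < d * ‖(hF x (z, 1)).2‖ ^ 2 := by
  obtain ⟨hQp, hPQ⟩ := fix_fin hfix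
  have hcF : Continuous (fun z : ℂ => hF x (z, 1)) := by
    have := (hF_contDiff d 1).continuous
    exact this.comp (by fun_prop : Continuous (fun z : ℂ => (x, ((z, 1) : ℂ × ℂ))))
  have hcw : Continuous (fun z : ℂ => wr x (z, 1)) := by
    have := (wr_contDiff d 1).continuous
    exact this.comp (by fun_prop : Continuous (fun z : ℂ => (x, ((z, 1) : ℂ × ℂ))))
  have e1 : ∀ᶠ z in 𝓝 p, ‖wr x (z, 1)‖ < d * ‖(hF x (z, 1)).2‖ ^ 2 := by
    have c5 : Continuous (fun z : ℂ => (d : ℝ) * ‖(hF x (z, 1)).2‖ ^ 2) :=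
      continuous_const.mul (hcF.snd.norm.pow 2)
    exact (isOpen_lt hcw.norm c5).mem_nhds hlt
  set P := pol x 0 with hP
  set Q := pol x 1 with hQ
  have hd0 : (0 : ℝ) < d := by exact_mod_cast (by omega : 0 < d)
  set lam := ((derivative P).eval p * Q.eval p - P.eval p * (derivative Q).eval p) /
    Q.eval p ^ 2 with hlam
  have hl1 : ‖lam‖ < 1 := by
    rw [Pool.Agent.W364.NM.wr_eval hd, PQ.hF_one, norm_mul, Complex.norm_natCast] at hlt
    rw [hlam, norm_div, norm_pow, div_lt_one (by have := norm_pos_iff.2 hQp; positivity)]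
    exact lt_of_mul_lt_mul_left hlt hd0.le
  have hder : HasDerivAt (fun z => P.eval z / Q.eval z) lam p :=
    (P.hasDerivAt p).div (Q.hasDerivAt p) hQp
  have e2 : ∀ᶠ w in 𝓝 p, Q.eval w ≠ 0 ∧
      ‖P.eval w / Q.eval w - p‖ ≤ (1 + ‖lam‖) / 2 * ‖w - p‖ := by
    have h1 := (hasDerivAt_iff_isLittleO.1 hder).def (half_pos (sub_pos.2 hl1))
    filter_upwards [h1, Q.continuous.continuousAt.eventually_ne hQp] with w hw hw2
    refine ⟨hw2, ?_⟩
    rw [hPQ, smul_eq_mul] at hw
    have h3 : ‖P.eval w / Q.eval w - p‖ ≤ ‖(w - p) * lam‖ +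
        ‖P.eval w / Q.eval w - p - (w - p) * lam‖ := by
      calc ‖P.eval w / Q.eval w - p‖ = ‖(w - p) * lam +
        (P.eval w / Q.eval w - p - (w - p) * lam)‖ := by congr 1; ring
        _ ≤ _ := norm_add_le _ _
    rw [norm_mul] at h3
    linarith
  obtain ⟨ρ, hρ, hb⟩ := Metric.nhds_basis_closedBall.eventually_iff.1 (e1.and e2)
  refine ⟨ρ, hρ, fun z hz => ⟨?_, (hb hz).1⟩⟩
  obtain ⟨-, h1, h2⟩ := hb hz
  rw [PQ.hF_one]
  simp only
  rw [← hP, ← hQ]
  have h3 : P.eval z / Q.eval z - p = (P.eval z - p * Q.eval z) / Q.eval z := by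
    field_simp
  rw [← div_lt_iff₀ (norm_pos_iff.2 h1), ← norm_div, ← h3]
  rw [mem_closedBall, dist_eq_norm] at hz
  calc ‖P.eval z / Q.eval z - p‖ ≤ (1 + ‖lam‖) / 2 * ‖z - p‖ := h2
    _ ≤ (1 + ‖lam‖) / 2 * ρ := by
        apply mul_le_mul_of_nonneg_left hz
        have := norm_nonneg lam
        positivity
    _ < ρ := by nlinarith

/-- **robustness** -/
theorem cert_of_hyp {d : ℕ} (hd : 2 ≤ d) {x : CV d} (hx : ND x) (hfix : HypFix (sp x))
    (hw : wr x (1, 0) ≠ 0) (hinf : sp x ∞ ≠ ∞) (Z : Finset ℂ)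
    (hZ : ∀ p : ℂ, sp x (p : OnePoint ℂ) = p → p ∈ Z ∧
      ‖wr x (p, 1)‖ ≠ d * ‖(hF x (p, 1)).2‖ ^ 2) :
    ∃ s : Finset (ℂ × ℝ), Cert s x := by
  have hch : ∀ p : ℂ, ∃ ρ : ℝ, 0 < ρ ∧ (sp x (p : OnePoint ℂ) = p →
      ‖wr x (p, 1)‖ < d * ‖(hF x (p, 1)).2‖ ^ 2 → ∀ z ∈ closedBall p ρ,
      ‖(hF x (z, 1)).1 - p * (hF x (z, 1)).2‖ < ρ * ‖(hF x (z, 1)).2‖ ∧
      ‖wr x (z, 1)‖ < d * ‖(hF x (z, 1)).2‖ ^ 2) := by
    intro p
    by_cases h1 : sp x (p : OnePoint ℂ) = p
    · by_cases h2 : ‖wr x (p, 1)‖ < d * ‖(hF x (p, 1)).2‖ ^ 2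
      · obtain ⟨ρ, h3, h4⟩ := exists_disc hd h1 h2
        exact ⟨ρ, h3, fun _ _ => h4⟩
      · exact ⟨1, one_pos, fun _ h => absurd h h2⟩
    · exact ⟨1, one_pos, fun h => absurd h h1⟩
  choose ρ hρ hρ2 using hch
  classical
  refine ⟨(Z.filter fun p : ℂ => sp x (p : OnePoint ℂ) = p ∧
    ‖wr x (p, 1)‖ < d * ‖(hF x (p, 1)).2‖ ^ 2).image fun p : ℂ => (p, ρ p), ?_, ?_, ?_⟩
  · intro c hc h
    have := hx c h
    rw [this] at hc
    simp at hc
  · intro i hi
    rw [Finset.mem_image] at hi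
    obtain ⟨p, hp, rfl⟩ := hi
    rw [Finset.mem_filter] at hp
    exact hρ2 p hp.2.1 hp.2.2
  · intro c hc hwc
    have hc0 : c ≠ 0 := by
      rintro rfl
      simp at hc
    have hc2 : c.2 ≠ 0 := by
      intro h2
      have h1 : c.1 ≠ 0 := fun h => hc0 (Prod.ext h h2)
      have h3 : c = c.1 • ((1, 0) : ℂ × ℂ) := by
        apply Prod.ext
        · simp
        · simp [h2]
      rw [h3, (WR d x hd).1] at hwc
      exact mul_ne_zero (pow_ne_zero _ h1) hw hwc
    set z : ℂ := c.1 / c.2 with hz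
    have hcz : c = c.2 • ((z, 1) : ℂ × ℂ) := by
      apply Prod.ext
      · simp only [Prod.smul_fst, smul_eq_mul, hz]
        field_simp
      · simp
    have hwz : wr x (z, 1) = 0 := by
      have h1 := wr_smul_zero hd (c.2)⁻¹ hwc
      rw [hcz, smul_smul, Prod.smul_snd, smul_eq_mul, mul_one, inv_mul_cancel₀ hc2, one_smul] at h1
      exact h1
    obtain ⟨a, h1, h2, h3⟩ := hfix (z : OnePoint ℂ) (not_inj hd hx hwz)
    induction a using OnePoint.rec with
    | infty => exact absurd h1 hinf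
    | coe p =>
      obtain ⟨hpZ, hpne⟩ := hZ p h1
      have hlt := lt_of_le_of_ne (mult_le hd hx h1 h2) hpne
      obtain ⟨k, hk⟩ := (h3.eventually_mem
        ((OnePoint.isOpenEmbedding_coe.isOpenMap _ isOpen_ball).mem_nhds
        ⟨p, mem_ball_self (hρ p), rfl⟩)).exists
      obtain ⟨u, hu, hu2⟩ := hk
      refine ⟨k, (p, ρ p), Finset.mem_image.2 ⟨p, Finset.mem_filter.2 ⟨hpZ, h1, hlt⟩, rfl⟩, ?_⟩
      have h4 := (SP d x (by omega) hx).2.1 c hc0 k
      have h5 : pr c = (z : OnePoint ℂ) := Pool.Agent.H790R3.RB.SP.pr_ne hc2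
      rw [h5] at h4
      rw [← hu2] at h4
      set q := (hF x)^[k] c with hq
      have hq2 : q.2 ≠ 0 := by
        intro h0
        rw [Pool.Agent.H790R3.RB.SP.pr_zero h0] at h4
        exact OnePoint.coe_ne_infty _ h4
      rw [Pool.Agent.H790R3.RB.SP.pr_ne hq2] at h4
      have h6 : u = q.1 / q.2 := OnePoint.coe_injective h4
      rw [mem_ball, dist_eq_norm, h6] at hu
      simp only
      rw [← div_lt_iff₀ (norm_pos_iff.2 hq2), ← norm_div]
      have h7 : q.1 / q.2 - p = (q.1 - p * q.2) / q.2 := by field_simp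
      rw [← h7]
      exact hu

end Pool.Agent.Helper65.EU
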