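import Mathlib
import Pool.Agent.Helper65.EU.Strong

/-! Certificates along almost all rays. -/

set_option autoImplicit false

open Topology Filter Metric Set MeasureTheory Polynomial
open scoped Real NNReal OnePoint

namespace Pool.Agent.Helper65.EU

open Pool.Agent.H790R3.RB

theorem pol_add_smul {d : ℕ} (x v : CV d) (τ : ℂ) (i : Fin 2) :
    pol (x + τ • v) i = pol x i + Polynomial.C τ * pol v i := by
  ext j
  rw [coeff_add, coeff_C_mul]
  by_cases hj : j < d + 1
  · have h1 := PQ.pol_coeff (x + τ • v) i ⟨j, hj⟩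
    have h2 := PQ.pol_coeff x i ⟨j, hj⟩
    have h3 := PQ.pol_coeff v i ⟨j, hj⟩
    simp only at h1 h2 h3
    rw [h1, h2, h3]
    rfl
  · rw [PQ.pol_coeff_gt _ _ _ (by omega), PQ.pol_coeff_gt _ _ _ (by omega),
      PQ.pol_coeff_gt _ _ _ (by omega)]
    simp

theorem pol_inj {d : ℕ} {x y : CV d} (h : ∀ i, pol x i = pol y i) : x = y := by
  funext ⟨i, j⟩
  rw [← PQ.pol_coeff x i j, ← PQ.pol_coeff y i j, h]

theorem of_hypPair {d : ℕ} (hd : 1 ≤ d) {x : CV d} (h : HypPair d (pol x 0) (pol x 1)) :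
    ND x ∧ HypFix (sp x) := by
  obtain ⟨h1, h2, f, h3, h4, h5⟩ := h
  obtain ⟨y, hy, hy0, hy1, hy2⟩ := ((PQ SP) d hd).2 _ _ h1 h2
  have hxy : y = x := by
    apply pol_inj
    intro i
    fin_cases i
    · exact hy0
    · exact hy1
  subst hxy
  have h6 := hy2 f h3 h4
  rw [h6] at h5
  exact ⟨hy, h5⟩

theorem re_count {w : ℂ} (hw : w ≠ 0) :
    {θ : ℝ | (w * (starRingEnd ℂ) (Complex.exp (θ * Complex.I))).re = 0}.Countable := by
  have h1 : (-Complex.I * w) ≠ 0 := mul_ne_zero (neg_ne_zero.2 Complex.I_ne_zero) hw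
  refine (circ h1).mono ?_
  intro θ hθ
  have hθ' : (w * (starRingEnd ℂ) (Complex.exp (θ * Complex.I))).re = 0 := hθ
  refine ⟨(w * (starRingEnd ℂ) (Complex.exp (θ * Complex.I))).im, ?_⟩
  have h2 : w * (starRingEnd ℂ) (Complex.exp (θ * Complex.I)) =
      ((w * (starRingEnd ℂ) (Complex.exp (θ * Complex.I))).im : ℂ) * Complex.I := by
    generalize w * (starRingEnd ℂ) (Complex.exp (θ * Complex.I)) = u at hθ' ⊢
    apply Complex.ext
    · rw [hθ']; simp
    · simp
  have h3 : (starRingEnd ℂ) (Complex.exp (θ * Complex.I)) * Complex.exp (θ * Complex.I) = 1 := by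
    rw [mul_comm, Complex.mul_conj, Complex.normSq_eq_norm_sq, Complex.norm_exp_ofReal_mul_I]
    simp
  generalize (w * (starRingEnd ℂ) (Complex.exp (θ * Complex.I))).im = m at h2 ⊢
  have h4 : w = (m : ℂ) * Complex.I * Complex.exp (θ * Complex.I) := by
    rw [← h2, mul_assoc, h3, mul_one]
  rw [h4]
  linear_combination (-(m : ℂ) * Complex.exp (θ * Complex.I)) * Complex.I_mul_I

end Pool.Agent.Helper65.EU
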