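import Mathlib
import Pool.Agent.Helper65.EU.Radial

/-! Generic directions. -/

set_option autoImplicit false

open Topology Filter Metric Set MeasureTheory Polynomial
open scoped Real NNReal OnePoint ENNReal

namespace Pool.Agent.Helper65.EU

open Pool.Agent.H790R3.RB

/-- a measurable set which meets the lines of one direction in countable sets is null -/
theorem null_of_lines {d : ℕ} {A : Set (CV d)} (hA : MeasurableSet A) (e : CV d)
    (h : ∀ v, {c : ℂ | v + c • e ∈ A}.Countable) : volume A = 0 := by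
  have hm : Measurable (fun q : ℂ × CV d => A.indicator (1 : CV d → ℝ≥0∞) (q.2 + q.1 • e)) := by
    have h1 : Measurable (fun q : ℂ × CV d => q.2 + q.1 • e) :=
      (by fun_prop : Continuous (fun q : ℂ × CV d => q.2 + q.1 • e)).measurable
    exact (measurable_one.indicator hA).comp h1
  have h1 : ∫⁻ c in ball (0 : ℂ) 1, ∫⁻ v : CV d, A.indicator (1 : CV d → ℝ≥0∞) (v + c • e) =
      ∫⁻ v : CV d, ∫⁻ c in ball (0 : ℂ) 1, A.indicator (1 : CV d → ℝ≥0∞) (v + c • e) :=
    lintegral_lintegral_swap hm.aemeasurable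
  have h2 : ∀ c : ℂ, ∫⁻ v : CV d, A.indicator (1 : CV d → ℝ≥0∞) (v + c • e) = volume A := by
    intro c
    rw [lintegral_add_right_eq_self (fun v : CV d => A.indicator (1 : CV d → ℝ≥0∞) v) (c • e),
      lintegral_indicator_one hA]
  have h3 : ∀ v : CV d, ∫⁻ c in ball (0 : ℂ) 1, A.indicator (1 : CV d → ℝ≥0∞) (v + c • e) = 0 := by
    intro v
    have h4 : (fun c : ℂ => A.indicator (1 : CV d → ℝ≥0∞) (v + c • e)) =ᵐ[volume.restrict
        (ball (0 : ℂ) 1)] fun _ => 0 := by
      apply ae_restrict_of_ae
      filter_upwards [(h v).ae_notMem volume] with c hc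
      exact indicator_of_notMem hc _
    rw [lintegral_congr_ae h4, lintegral_zero]
  simp only [h2, h3, lintegral_const, Measure.restrict_apply MeasurableSet.univ, univ_inter,
    zero_mul] at h1
  rcases mul_eq_zero.1 h1 with h5 | h5
  · exact h5
  · exact absurd h5 (measure_ball_pos volume (0 : ℂ) one_pos).ne'

/-- the field of a direction -/
noncomputable def Rv {d : ℕ} (v : CV d) : ℂ[X] := pol v 0 - Polynomial.X * pol v 1

theorem Rv_coeff {d : ℕ} (v : CV d) : (Rv v).coeff (d + 1) = - v (1, Fin.last d) := by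
  unfold Rv
  rw [coeff_sub, coeff_X_mul, PQ.pol_coeff_gt v 0 (d + 1) (by omega), zero_sub]
  rw [← PQ.pol_coeff v 1 (Fin.last d), Fin.val_last]

theorem Rv_natDegree_le {d : ℕ} (v : CV d) : (Rv v).natDegree ≤ d + 1 := by
  unfold Rv
  apply (natDegree_sub_le _ _).trans
  apply max_le
  · exact (PQ.pol_natDegree v 0).trans (by omega)
  · refine natDegree_mul_le.trans ?_
    rw [natDegree_X]
    have := PQ.pol_natDegree v 1
    omega

theorem Rv_natDegree {d : ℕ} {v : CV d} (h : v (1, Fin.last d) ≠ 0) :
    (Rv v).natDegree = d + 1 := by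
  apply le_antisymm (Rv_natDegree_le v)
  apply le_natDegree_of_ne_zero
  rw [Rv_coeff]
  exact neg_ne_zero.2 h

theorem Rv_shift {d : ℕ} (v : CV d) (c : ℂ) :
    Rv (v + c • (Pi.single (0, 0) 1 : CV d)) = Rv v + Polynomial.C c := by
  have h0 : pol (Pi.single (0, 0) 1 : CV d) 0 = 1 := by
    unfold pol
    rw [Finset.sum_eq_single_of_mem 0 (Finset.mem_univ _)]
    · simp
    · intro j _ hj
      rw [Pi.single_eq_of_ne]
      · simp
      · intro h
        exact hj (congrArg Prod.snd h)
  have h1 : pol (Pi.single (0, 0) 1 : CV d) 1 = 0 := by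
    unfold pol
    apply Finset.sum_eq_zero
    intro j _
    rw [Pi.single_eq_of_ne]
    · simp
    · intro h
      exact one_ne_zero (congrArg Prod.fst h)
  unfold Rv
  rw [pol_add_smul, pol_add_smul, h0, h1]
  ring

theorem pol_eval_cont {d : ℕ} (i : Fin 2) :
    Continuous (fun q : CV d × ℂ => (pol q.1 i).eval q.2) := by
  simp only [PQ.pol_eval]
  fun_prop

theorem pol_der_cont {d : ℕ} (i : Fin 2) :
    Continuous (fun q : CV d × ℂ => (derivative (pol q.1 i)).eval q.2) := by
  have h : ∀ q : CV d × ℂ, (derivative (pol q.1 i)).eval q.2 =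
      ∑ j : Fin (d + 1), q.1 (i, j) * (j : ℕ) * q.2 ^ ((j : ℕ) - 1) := by
    intro q
    unfold pol
    rw [derivative_sum, eval_finsetSum]
    refine Finset.sum_congr rfl fun j _ => ?_
    rw [derivative_monomial, eval_monomial]
  simp only [h]
  fun_prop

theorem Rv_eval {d : ℕ} (v : CV d) (z : ℂ) :
    (Rv v).eval z = (pol v 0).eval z - z * (pol v 1).eval z := by
  unfold Rv
  rw [eval_sub, eval_mul, eval_X]

theorem Rv_der_eval {d : ℕ} (v : CV d) (z : ℂ) : (derivative (Rv v)).eval z =
    (derivative (pol v 0)).eval z - ((pol v 1).eval z + z * (derivative (pol v 1)).eval z) := by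
  unfold Rv
  rw [derivative_sub, derivative_mul, derivative_X, one_mul, eval_sub, eval_add, eval_mul, eval_X]

theorem ae_generic {d : ℕ} {Q : ℂ[X]} (hQ : Q ≠ 0) : ∀ᵐ v : CV d,
    (Rv v).natDegree = d + 1 ∧ (Rv v).Separable ∧ IsCoprime Q (Rv v) := by
  set A0 : Set (CV d) := {v | v (1, Fin.last d) = 0} with hA0
  set A1 : Set (CV d) := {v | v (1, Fin.last d) ≠ 0} ∩ ⋃ n : ℕ,
    {v | ∃ z ∈ closedBall (0 : ℂ) n, (Rv v).eval z = 0 ∧ (derivative (Rv v)).eval z * Q.eval z = 0}
    with hA1
  have hA0c : IsClosed A0 := by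
    have : Continuous (fun v : CV d => v (1, Fin.last d)) := by fun_prop
    exact isClosed_singleton.preimage this
  have hm0 : volume A0 = 0 := by
    apply null_of_lines hA0c.measurableSet (Pi.single (1, Fin.last d) 1 : CV d)
    intro v
    apply (Set.countable_singleton (-v (1, Fin.last d))).mono
    intro c hc
    have h1 : (v + c • (Pi.single (1, Fin.last d) 1 : CV d)) (1, Fin.last d) = 0 := hc
    simp only [Pi.add_apply, Pi.smul_apply, Pi.single_eq_same, smul_eq_mul, mul_one] at h1
    rw [mem_singleton_iff]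
    linear_combination h1
  have hmeas : MeasurableSet A1 := by
    apply MeasurableSet.inter
    · exact hA0c.measurableSet.compl
    · apply MeasurableSet.iUnion
      intro n
      apply IsClosed.measurableSet
      rw [← isOpen_compl_iff, isOpen_iff_mem_nhds]
      intro v hv
      have hv' : ∀ z ∈ closedBall (0 : ℂ) n, ¬ ((Rv v).eval z = 0 ∧
          (derivative (Rv v)).eval z * Q.eval z = 0) := fun z hz h => hv ⟨z, hz, h⟩
      have e1 : ∀ᶠ w in 𝓝 v, ∀ z ∈ closedBall (0 : ℂ) n, ¬ ((Rv w).eval z = 0 ∧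
          (derivative (Rv w)).eval z * Q.eval z = 0) := by
        apply IsCompact.eventually_forall_of_forall_eventually (isCompact_closedBall _ _)
        intro z hz
        have c1 : Continuous (fun q : CV d × ℂ => (Rv q.1).eval q.2) := by
          simp only [Rv_eval]
          exact (pol_eval_cont 0).sub (continuous_snd.mul (pol_eval_cont 1))
        have c2 : Continuous (fun q : CV d × ℂ => (derivative (Rv q.1)).eval q.2 * Q.eval q.2) := by
          simp only [Rv_der_eval]
          exact ((pol_der_cont 0).sub ((pol_eval_cont 1).add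
            (continuous_snd.mul (pol_der_cont 1)))).mul (Q.continuous.comp continuous_snd)
        have hcl : IsClosed {q : CV d × ℂ | (Rv q.1).eval q.2 = 0 ∧
            (derivative (Rv q.1)).eval q.2 * Q.eval q.2 = 0} :=
          (isClosed_singleton.preimage c1).inter (isClosed_singleton.preimage c2)
        have : (v, z) ∈ {q : CV d × ℂ | (Rv q.1).eval q.2 = 0 ∧
            (derivative (Rv q.1)).eval q.2 * Q.eval q.2 = 0}ᶜ := hv' z hz
        exact hcl.isOpen_compl.mem_nhds this
      filter_upwards [e1] with w hw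
      rintro ⟨z, hz, h⟩
      exact hw z hz h
  have hm1 : volume A1 = 0 := by
    apply null_of_lines hmeas (Pi.single (0, 0) 1 : CV d)
    intro v
    by_cases hv : v (1, Fin.last d) = 0
    · convert Set.countable_empty
      ext c
      simp only [mem_empty_iff_false, iff_false]
      intro hc
      have h1 : (v + c • (Pi.single (0, 0) 1 : CV d)) (1, Fin.last d) ≠ 0 := hc.1
      apply h1
      have h2 : ((1, Fin.last d) : Fin 2 × Fin (d + 1)) ≠ (0, 0) := fun h =>
        one_ne_zero (congrArg Prod.fst h)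
      simp only [Pi.add_apply, Pi.smul_apply, Pi.single_eq_of_ne h2, smul_zero, add_zero]
      exact hv
    · have hdR : derivative (Rv v) * Q ≠ 0 := by
        apply mul_ne_zero _ hQ
        intro h
        have h1 := derivative_eq_zero.1 h
        rw [Rv_natDegree hv] at h1
        omega
      apply (((derivative (Rv v) * Q).roots.toFinset.finite_toSet.image
        (fun z => - (Rv v).eval z)).subset _).countable
      intro c hc
      have h1 : v + c • (Pi.single (0, 0) 1 : CV d) ∈ A1 := hc
      obtain ⟨-, h2⟩ := h1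
      rw [mem_iUnion] at h2
      obtain ⟨n, z, -, h3, h4⟩ := h2
      rw [Rv_shift] at h3 h4
      rw [derivative_add, derivative_C, add_zero] at h4
      rw [eval_add, eval_C] at h3
      refine ⟨z, ?_, ?_⟩
      · rw [Finset.mem_coe, Multiset.mem_toFinset, mem_roots hdR, IsRoot.def, eval_mul]
        exact h4
      · simp only
        linear_combination -h3
  have h0 : ∀ᵐ v : CV d, v ∉ A0 := by
    rw [ae_iff]
    simpa using hm0
  have h1 : ∀ᵐ v : CV d, v ∉ A1 := by
    rw [ae_iff]
    simpa using hm1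
  filter_upwards [h0, h1] with v hv0 hv1
  have hv0' : v (1, Fin.last d) ≠ 0 := hv0
  have hno : ∀ z : ℂ, (Rv v).eval z = 0 → (derivative (Rv v)).eval z ≠ 0 ∧ Q.eval z ≠ 0 := by
    intro z hz
    rw [← mul_ne_zero_iff]
    intro h
    apply hv1
    refine ⟨hv0', ?_⟩
    rw [mem_iUnion]
    obtain ⟨n, hn⟩ := exists_nat_ge ‖z‖
    exact ⟨n, z, by rw [mem_closedBall_zero_iff]; exact hn, hz, h⟩
  refine ⟨Rv_natDegree hv0', ?_, ?_⟩
  · show IsCoprime (Rv v) (derivative (Rv v))
    rw [isCoprime_iff_aeval_ne_zero_of_isAlgClosed ℂ ℂ]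
    intro a
    rw [coe_aeval_eq_eval]
    by_contra hcon
    push Not at hcon
    exact (hno a hcon.1).1 hcon.2
  · rw [isCoprime_iff_aeval_ne_zero_of_isAlgClosed ℂ ℂ]
    intro a
    rw [coe_aeval_eq_eval]
    by_contra hcon
    push Not at hcon
    exact (hno a hcon.2).2 hcon.1

end Pool.Agent.Helper65.EU
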