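import Mathlib
import Pool.Agent.Helper65.EU.Null
import Pool.Agent.Helper65.EU.Meas

/-! Density points. -/

set_option autoImplicit false

open Topology Filter Metric Set MeasureTheory Polynomial
open scoped Real NNReal OnePoint ENNReal

namespace Pool.Agent.Helper65.EU

open Pool.Agent.H790R3.RB

/-- the open set of certified maps -/
def Gset (d : ℕ) : Set (CV d) := ⋃ s : Finset (ℂ × ℝ), {x | Cert s x}

theorem Gset_open (d : ℕ) : IsOpen (Gset d) := isOpen_iUnion fun s => isOpen_cert s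

theorem Gset_hyp {d : ℕ} (hd : 2 ≤ d) {x : CV d} (hx : x ∈ Gset d) :
    HypPair d (pol x 0) (pol x 1) := by
  obtain ⟨s, hs⟩ := mem_iUnion.1 hx
  obtain ⟨h1, h2⟩ := Cert.hypFix hd hs
  obtain ⟨h3, h4, -, -, h5⟩ := ((PQ SP) d (by omega)).1 x h1
  exact ⟨h3, h4, sp x, (SP d x (by omega) h1).1, h5, h2⟩

theorem dens_of_ae {d : ℕ} (hd : 2 ≤ d) {x0 : CV d} (h : ∀ᵐ v : CV d, ∃ B : Set ℝ, B.Countable ∧
      ∀ θ ∉ B, ∀ᶠ t : ℝ in 𝓝[>] 0,
      x0 + ((t : ℂ) * Complex.exp (θ * Complex.I)) • v ∈ Gset d) :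
    Tendsto (fun r : ℝ => volume {x | x ∈ closedBall x0 r ∧ ¬ HypPair d (pol x 0) (pol x 1)} /
      volume (closedBall x0 r)) (𝓝[>] 0) (𝓝 0) := by
  have h1 := density (Gset_open d) x0 h
  apply tendsto_of_tendsto_of_tendsto_of_le_of_le tendsto_const_nhds h1
  · intro r
    exact zero_le
  · intro r
    apply ENNReal.div_le_div_right
    apply measure_mono
    rintro x ⟨hx1, hx2⟩
    exact ⟨hx1, fun h => hx2 (Gset_hyp hd h)⟩

end Pool.Agent.Helper65.EU
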