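import Mathlib

/-! Flows of bounded Lipschitz vector fields in the plane. -/

set_option autoImplicit false

open Topology Filter Metric Set MeasureTheory
open scoped Real NNReal

namespace Pool.Agent.Helper65.EU

theorem exists_flow {v : ℂ → ℂ} {K M : ℝ≥0} (hL : LipschitzWith K v) (hM : ∀ z, ‖v z‖ ≤ M)
    (x0 : ℂ) : ∃ Γ : ℝ → ℂ, Γ 0 = x0 ∧ ∀ t, HasDerivAt Γ (v (Γ t)) t := by
  have hloc : ∀ n : ℕ, ∃ α : ℝ → ℂ, α 0 = x0 ∧
      ∀ t ∈ Ioo (-((n : ℝ) + 1)) (n + 1), HasDerivAt α (v (α t)) t := by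
    intro n
    have h0 : (0 : ℝ) ∈ Icc (-((n : ℝ) + 1)) (n + 1) := ⟨by
      have : (0 : ℝ) ≤ (n : ℝ) := Nat.cast_nonneg n
      linarith, by positivity⟩
    have hP : IsPicardLindelof (fun _ : ℝ => v) (tmin := -((n : ℝ) + 1)) (tmax := n + 1)
        ⟨0, h0⟩ x0 (M * ((n : ℝ≥0) + 1)) 0 M K := by
      refine ⟨fun t _ => hL.lipschitzOnWith, fun x _ => continuousOn_const, fun t _ x _ => hM x, ?_⟩
      simp
    obtain ⟨α, h1, h2⟩ := hP.exists_eq_forall_mem_Icc_hasDerivWithinAt₀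
    refine ⟨α, h1, fun t ht => ?_⟩
    exact (h2 t (Ioo_subset_Icc_self ht)).hasDerivAt (Icc_mem_nhds ht.1 ht.2)
  choose α hα0 hα using hloc
  have hagree : ∀ n m : ℕ, n ≤ m → ∀ t ∈ Ioo (-((n : ℝ) + 1)) (n + 1), α n t = α m t := by
    intro n m hnm t ht
    have hcast : (n : ℝ) ≤ m := by exact_mod_cast hnm
    refine ODE_solution_unique_of_mem_Ioo (v := fun _ => v) (s := fun _ => univ) (K := K)
      (a := -((n : ℝ) + 1)) (b := n + 1) (t₀ := 0)
      (fun t _ => hL.lipschitzOnWith) ⟨by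
        have : (0 : ℝ) ≤ (n : ℝ) := Nat.cast_nonneg n
        linarith, by positivity⟩ (fun t ht => ⟨hα n t ht, mem_univ _⟩)
      (fun t ht => ⟨hα m t ⟨by linarith [ht.1], by linarith [ht.2]⟩, mem_univ _⟩)
      ((hα0 n).trans (hα0 m).symm) ht
  set Γ : ℝ → ℂ := fun t => α ⌈|t|⌉₊ t with hΓ
  have hmem : ∀ t : ℝ, t ∈ Ioo (-((⌈|t|⌉₊ : ℝ) + 1)) (⌈|t|⌉₊ + 1) := by
    intro t
    have h1 := Nat.le_ceil |t|
    have h2 := abs_le.1 h1
    exact ⟨by linarith, by linarith⟩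
  refine ⟨Γ, ?_, ?_⟩
  · simp only [hΓ]
    exact hα0 _
  · intro t
    set N : ℕ := ⌈|t|⌉₊ + 1 with hN
    have hNt : t ∈ Ioo (-(N : ℝ)) N := by
      have := hmem t
      rw [hN]
      push_cast
      exact this
    have heq : Γ =ᶠ[𝓝 t] α N := by
      filter_upwards [isOpen_Ioo.mem_nhds hNt] with s hs
      simp only [hΓ]
      apply hagree _ _ _ _ (hmem s)
      apply Nat.ceil_le.2
      exact (abs_lt.2 hs).le
    have h1 := hα N t ⟨by linarith [hNt.1], by linarith [hNt.2]⟩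
    have h2 : Γ t = α N t := heq.self_of_nhds
    rw [h2]
    exact h1.congr_of_eventuallyEq heq

theorem time_change {v : ℂ → ℂ} {K : ℝ≥0} (hL : LipschitzWith K v) {Γ : ℝ → ℂ}
    (hΓ : ∀ t, HasDerivAt Γ (v (Γ t)) t) {ζ : ℝ → ℂ} {h : ℝ → ℝ} {A B : ℝ}
    (hh : ContinuousOn h (Icc A B)) (hζ : ∀ s ∈ Ioo A B, HasDerivAt ζ ((h s : ℂ) * v (ζ s)) s)
    {s0 τ0 : ℝ} (hs0 : s0 ∈ Ioo A B) (h0 : ζ s0 = Γ τ0) :
    ∀ s ∈ Ioo A B, ζ s = Γ (τ0 + ∫ u in s0..s, h u) := by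
  obtain ⟨C, hC⟩ := isCompact_Icc.exists_bound_of_continuousOn hh
  have hC0 : 0 ≤ C := (norm_nonneg _).trans (hC s0 (Ioo_subset_Icc_self hs0))
  have hder : ∀ s ∈ Ioo A B, HasDerivAt (fun s => τ0 + ∫ u in s0..s, h u) (h s) s := by
    intro s hs
    have h1 : IntervalIntegrable h volume s0 s := by
      apply (hh.mono _).intervalIntegrable
      intro x hx
      rw [mem_uIcc] at hx
      rcases hx with hx | hx
      · exact ⟨(hs0.1.le).trans hx.1, hx.2.trans hs.2.le⟩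
      · exact ⟨(hs.1.le).trans hx.1, hx.2.trans hs0.2.le⟩
    have h2 : ContinuousAt h s := hh.continuousAt (Icc_mem_nhds hs.1 hs.2)
    have h3 : StronglyMeasurableAtFilter h (𝓝 s) := by
      refine ⟨Icc A B, Icc_mem_nhds hs.1 hs.2, hh.aestronglyMeasurable measurableSet_Icc⟩
    exact (intervalIntegral.integral_hasDerivAt_right h1 h3 h2).const_add τ0
  refine ODE_solution_unique_of_mem_Ioo (v := fun s x => (h s : ℂ) * v x) (s := fun _ => univ)
    (K := Real.toNNReal C * K) (t₀ := s0) ?_ hs0 (fun s hs => ⟨hζ s hs, mem_univ _⟩)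
    (fun s hs => ⟨?_, mem_univ _⟩) ?_
  · intro s hs
    apply LipschitzWith.lipschitzOnWith
    apply LipschitzWith.of_dist_le_mul
    intro x y
    rw [dist_eq_norm, dist_eq_norm, ← mul_sub, norm_mul, Complex.norm_real]
    have h1 := hL.dist_le_mul x y
    rw [dist_eq_norm, dist_eq_norm] at h1
    have h2 := hC s (Ioo_subset_Icc_self hs)
    push_cast
    rw [Real.coe_toNNReal C hC0, mul_assoc]
    exact mul_le_mul h2 h1 (norm_nonneg _) hC0
  · have h1 := (hΓ (τ0 + ∫ u in s0..s, h u)).scomp s (hder s hs)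
    refine h1.congr_deriv ?_
    simp
  · rw [intervalIntegral.integral_same, add_zero]
    exact h0

theorem periodic {v : ℂ → ℂ} {K : ℝ≥0} (hL : LipschitzWith K v) {Γ : ℝ → ℂ}
    (hΓ : ∀ t, HasDerivAt Γ (v (Γ t)) t) {t1 t2 : ℝ} (h : Γ t1 = Γ t2) :
    ∀ t, Γ (t + (t2 - t1)) = Γ t := by
  have h1 : (fun t => Γ (t + (t2 - t1))) = Γ := by
    refine ODE_solution_unique_univ (v := fun _ => v) (s := fun _ => univ) (K := K) (t₀ := t1)
      (fun _ => hL.lipschitzOnWith) (fun t => ⟨?_, mem_univ _⟩) (fun t => ⟨hΓ t, mem_univ _⟩) ?_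
    · exact (hΓ (t + (t2 - t1))).comp_add_const t (t2 - t1)
    · rw [show t1 + (t2 - t1) = t2 by ring, ← h]
  exact fun t => congrFun h1 t

/-- the image of a periodic solution is the image of a compact interval -/
theorem periodic_image {Γ : ℝ → ℂ} {T : ℝ} (hT : 0 < T) (h : ∀ t, Γ (t + T) = Γ t) (t : ℝ) :
    ∃ s ∈ Icc (0 : ℝ) T, Γ s = Γ t := by
  have hp : Function.Periodic Γ T := h
  obtain ⟨s, hs, hs2⟩ := hp.exists_mem_Ico₀ hT t
  exact ⟨s, ⟨hs.1, hs.2.le⟩, hs2.symm⟩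

/-- a solution which meets a zero of the field is constant -/
theorem const_of_zero {v : ℂ → ℂ} {K : ℝ≥0} (hL : LipschitzWith K v) {Γ : ℝ → ℂ}
    (hΓ : ∀ t, HasDerivAt Γ (v (Γ t)) t) {t1 : ℝ} (h : v (Γ t1) = 0) : ∀ t, Γ t = Γ t1 := by
  have h1 : Γ = fun _ => Γ t1 := by
    refine ODE_solution_unique_univ (v := fun _ => v) (s := fun _ => univ) (K := K) (t₀ := t1)
      (fun _ => hL.lipschitzOnWith) (fun t => ⟨hΓ t, mem_univ _⟩) (fun t => ⟨?_, mem_univ _⟩) rfl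
    rw [h]
    exact hasDerivAt_const t (Γ t1)
  exact fun t => congrFun h1 t

end Pool.Agent.Helper65.EU
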