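import Mathlib

/-! Winding integrals of curves in the plane. -/

set_option autoImplicit false

open Topology Filter Metric Set MeasureTheory
open scoped Real

namespace Pool.Agent.Helper65.EU

/-- integral of `dw / (w - z)` along a curve -/
noncomputable def J (γ γ' : ℝ → ℂ) (a b : ℝ) (z : ℂ) : ℂ := ∫ t in a..b, γ' t / (γ t - z)

theorem J_int {γ γ' : ℝ → ℂ} {a b : ℝ}
    (hγ : ∀ t ∈ Icc a b, HasDerivAt γ (γ' t) t) (hc : ContinuousOn γ' (Icc a b)) {z : ℂ}
    (hz : ∀ t ∈ Icc a b, γ t ≠ z) : ContinuousOn (fun t => γ' t / (γ t - z)) (Icc a b) := by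
  apply hc.div
  · exact (fun t ht => ((hγ t ht).continuousAt.continuousWithinAt).sub continuousWithinAt_const)
  · intro t ht
    exact sub_ne_zero.2 (hz t ht)

/-- the primitive, as a function of the upper endpoint -/
theorem prim_right {f : ℝ → ℂ} {a b : ℝ} (hi : ContinuousOn f (Icc a b)) :
    ∀ t ∈ Ico a b, HasDerivWithinAt (fun u => ∫ s in a..u, f s) (f t) (Ici t) t := by
  intro t ht
  have h1 : IntervalIntegrable f volume a t :=
    (hi.mono (by rw [uIcc_of_le ht.1]; exact Icc_subset_Icc_right ht.2.le)).intervalIntegrable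
  have h2 : ContinuousWithinAt f (Ioi t) t := by
    have := hi t ⟨ht.1, ht.2.le⟩
    exact this.mono_of_mem_nhdsWithin (Icc_mem_nhdsGT_of_mem ht)
  have h3 : StronglyMeasurableAtFilter f (𝓝[>] t) := by
    refine ⟨Ioc t b, Ioc_mem_nhdsGT ht.2, ?_⟩
    exact (hi.mono (fun x hx => ⟨ht.1.trans hx.1.le, hx.2⟩)).aestronglyMeasurable
      measurableSet_Ioc
  exact intervalIntegral.integral_hasDerivWithinAt_right h1 h3 h2

theorem exp_J {γ γ' : ℝ → ℂ} {a b : ℝ} (hab : a ≤ b)
    (hγ : ∀ t ∈ Icc a b, HasDerivAt γ (γ' t) t) (hc : ContinuousOn γ' (Icc a b)) {z : ℂ}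
    (hz : ∀ t ∈ Icc a b, γ t ≠ z) :
    Complex.exp (J γ γ' a b z) = (γ b - z) / (γ a - z) := by
  have hi := J_int hγ hc hz
  set f : ℝ → ℂ := fun t => γ' t / (γ t - z) with hf
  set F : ℝ → ℂ := fun t => Complex.exp (-(∫ s in a..t, f s)) * (γ t - z) with hF
  have hIc : ContinuousOn (fun t => ∫ s in a..t, f s) (Icc a b) := by
    have := intervalIntegral.continuousOn_primitive_interval (a := a) (b := b) (f := f) (μ := volume)
      (by rw [uIcc_of_le hab]; exact hi.integrableOn_Icc)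
    rwa [uIcc_of_le hab] at this
  have hγc : ContinuousOn γ (Icc a b) := fun t ht => (hγ t ht).continuousAt.continuousWithinAt
  have hFc : ContinuousOn F (Icc a b) := by
    apply ContinuousOn.mul
    · exact hIc.neg.cexp
    · exact hγc.sub continuousOn_const
  have hder : ∀ t ∈ Ico a b, HasDerivWithinAt F 0 (Ici t) t := by
    intro t ht
    have h1 := (prim_right hi t ht).neg.cexp
    have h2 : HasDerivWithinAt (fun u => γ u - z) (γ' t) (Ici t) t :=
      ((hγ t ⟨ht.1, ht.2.le⟩).sub_const z).hasDerivWithinAt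
    have h3 := h1.mul h2
    have hne : γ t - z ≠ 0 := sub_ne_zero.2 (hz t ⟨ht.1, ht.2.le⟩)
    have hft : f t * (γ t - z) = γ' t := by
      simp only [f]
      field_simp
    refine h3.congr_deriv ?_
    linear_combination -Complex.exp (-(∫ s in a..t, f s)) * hft
  have hconst := constant_of_has_deriv_right_zero hFc hder b (right_mem_Icc.2 hab)
  have ha : γ a - z ≠ 0 := sub_ne_zero.2 (hz a (left_mem_Icc.2 hab))
  simp only [hF, intervalIntegral.integral_same, neg_zero, Complex.exp_zero, one_mul] at hconst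
  rw [Complex.exp_neg] at hconst
  have hne : Complex.exp (∫ s in a..b, f s) ≠ 0 := Complex.exp_ne_zero _
  have : J γ γ' a b z = ∫ s in a..b, f s := rfl
  rw [this, eq_div_iff ha, ← hconst]
  field_simp

/-- difference of two values -/
theorem J_sub {γ γ' : ℝ → ℂ} {a b : ℝ} (hab : a ≤ b)
    (hγ : ∀ t ∈ Icc a b, HasDerivAt γ (γ' t) t) (hc : ContinuousOn γ' (Icc a b)) {z z' : ℂ}
    {M δ : ℝ} (hM : ∀ t ∈ Icc a b, ‖γ' t‖ ≤ M) (hδ : 0 < δ)
    (hz : ∀ t ∈ Icc a b, δ ≤ ‖γ t - z‖) (hz' : ∀ t ∈ Icc a b, δ ≤ ‖γ t - z'‖) :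
    ‖J γ γ' a b z - J γ γ' a b z'‖ ≤ M * ‖z - z'‖ / δ ^ 2 * (b - a) := by
  have hn : ∀ t ∈ Icc a b, γ t ≠ z := fun t ht h => by
    have := hz t ht
    rw [h, sub_self, norm_zero] at this
    linarith
  have hn' : ∀ t ∈ Icc a b, γ t ≠ z' := fun t ht h => by
    have := hz' t ht
    rw [h, sub_self, norm_zero] at this
    linarith
  have h1 : IntervalIntegrable (fun t => γ' t / (γ t - z)) volume a b :=
    (by rw [uIcc_of_le hab]; exact J_int hγ hc hn : ContinuousOn _ (uIcc a b)).intervalIntegrable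
  have h2 : IntervalIntegrable (fun t => γ' t / (γ t - z')) volume a b :=
    (by rw [uIcc_of_le hab]; exact J_int hγ hc hn' : ContinuousOn _ (uIcc a b)).intervalIntegrable
  unfold J
  rw [← intervalIntegral.integral_sub h1 h2]
  have h3 := intervalIntegral.norm_integral_le_of_norm_le_const (a := a) (b := b)
    (f := fun t => γ' t / (γ t - z) - γ' t / (γ t - z')) (C := M * ‖z - z'‖ / δ ^ 2) (by
      intro t ht
      rw [uIoc_of_le hab] at ht
      have ht' : t ∈ Icc a b := ⟨ht.1.le, ht.2⟩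
      have e1 : γ t - z ≠ 0 := sub_ne_zero.2 (hn t ht')
      have e2 : γ t - z' ≠ 0 := sub_ne_zero.2 (hn' t ht')
      have e3 : γ' t / (γ t - z) - γ' t / (γ t - z') = γ' t * (z - z') / ((γ t - z) * (γ t - z')) := by
        field_simp
        ring
      rw [e3, norm_div, norm_mul, norm_mul]
      have e4 : δ ^ 2 ≤ ‖γ t - z‖ * ‖γ t - z'‖ := by
        rw [sq]
        exact mul_le_mul (hz t ht') (hz' t ht') hδ.le (norm_nonneg _)
      exact div_le_div₀ (mul_nonneg ((norm_nonneg _).trans (hM t ht')) (norm_nonneg _))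
        (mul_le_mul_of_nonneg_right (hM t ht') (norm_nonneg _)) (by positivity) e4)
  rwa [abs_of_nonneg (sub_nonneg.2 hab)] at h3

/-- a locally constant function on a preconnected set is constant -/
theorem const_on {X : Type*} [TopologicalSpace X] {Y : Type*} {f : X → Y} {S : Set X}
    (hS : IsPreconnected S) (hf : ∀ x ∈ S, ∀ᶠ y in 𝓝 x, f y = f x) :
    ∀ x ∈ S, ∀ y ∈ S, f x = f y := by
  intro x hx y hy
  by_contra hne
  set u : Set X := {z | ∀ᶠ w in 𝓝 z, f w = f x} with hu
  set v : Set X := {z | ∀ᶠ w in 𝓝 z, f w ≠ f x} with hv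
  have huo : IsOpen u := isOpen_iff_mem_nhds.2 fun z hz => eventually_eventually_nhds.2 hz
  have hvo : IsOpen v := isOpen_iff_mem_nhds.2 fun z hz => eventually_eventually_nhds.2 hz
  have hcov : S ⊆ u ∪ v := by
    intro z hz
    by_cases h : f z = f x
    · left
      filter_upwards [hf z hz] with w hw
      rw [hw, h]
    · right
      filter_upwards [hf z hz] with w hw
      rw [hw]
      exact h
  obtain ⟨z, -, hz1, hz2⟩ := hS u v huo hvo hcov ⟨x, hx, hf x hx⟩ ⟨y, hy, by
    filter_upwards [hf y hy] with w hw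
    rw [hw]
    exact fun h => hne h.symm⟩
  exact hz2.self_of_nhds hz1.self_of_nhds

/-- a locally constant-ish dichotomy: on a preconnected set `Y`, off a set `κ`, near whose points
in `Y` the function only takes the values `a` and `b` -/
theorem value_mem {f : ℂ → ℂ} {Y κ : Set ℂ} (hY : IsPreconnected Y)
    (hf : ∀ x, x ∉ κ → ∀ᶠ y in 𝓝 x, f y = f x) 
    {a b : ℂ} (hκ2 : ∀ x ∈ κ ∩ Y, (∀ᶠ y in 𝓝 x, y ∉ κ → f y = a ∨ f y = b) ∧ x ∈ closure κᶜ)
    {x y : ℂ} (hx : x ∈ Y) (hxκ : x ∉ κ) (hy : y ∈ Y) (hyκ : y ∉ κ) (hxy : f x ≠ f y) :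
    f x = a ∨ f x = b := by
  by_contra hab
  push Not at hab
  set u : Set ℂ := {z | ∀ᶠ w in 𝓝 z, w ∉ κ → f w = f x} with hu
  set v : Set ℂ := {z | ∀ᶠ w in 𝓝 z, w ∉ κ → f w ≠ f x} with hv
  have huo : IsOpen u := isOpen_iff_mem_nhds.2 fun z hz => eventually_eventually_nhds.2 hz
  have hvo : IsOpen v := isOpen_iff_mem_nhds.2 fun z hz => eventually_eventually_nhds.2 hz
  have hcov : Y ⊆ u ∪ v := by
    intro z hz
    by_cases hzκ : z ∈ κ
    · right
      filter_upwards [(hκ2 z ⟨hzκ, hz⟩).1] with w hw hwκ h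
      rcases hw hwκ with h1 | h1
      · exact hab.1 (h.symm.trans h1)
      · exact hab.2 (h.symm.trans h1)
    · by_cases h : f z = f x
      · left
        filter_upwards [hf z hzκ] with w hw _
        rw [hw, h]
      · right
        filter_upwards [hf z hzκ] with w hw _
        rw [hw]
        exact h
  obtain ⟨z, hzY, hz1, hz2⟩ := hY u v huo hvo hcov ⟨x, hx, by
      filter_upwards [hf x hxκ] with w hw _
      exact hw⟩ ⟨y, hy, by
    filter_upwards [hf y hyκ] with w hw _
    rw [hw]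
    exact fun h => hxy h.symm⟩
  have h3 : ∀ᶠ w in 𝓝 z, w ∈ κ := by
    filter_upwards [hz1, hz2] with w h1 h2
    by_contra hw
    exact h2 hw (h1 hw)
  by_cases hzκ : z ∈ κ
  · have h4 := (hκ2 z ⟨hzκ, hzY⟩).2
    rw [mem_closure_iff_nhds] at h4
    obtain ⟨w, hw1, hw2⟩ := h4 _ h3
    exact hw2 hw1
  · exact hzκ h3.self_of_nhds

/-- the complement of a disc is preconnected -/
theorem compl_ball_preconn (q : ℂ) (r : ℝ) : IsPreconnected (closedBall q r)ᶜ := by
  have : (closedBall q r)ᶜ = (fun p : ℝ × ℝ => q + p.1 * Complex.exp (p.2 * Complex.I)) ''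
      (Ioi r ×ˢ univ) := by
    ext z
    constructor
    · intro hz
      rw [mem_compl_iff, mem_closedBall, dist_eq_norm, not_le] at hz
      refine ⟨(‖z - q‖, Complex.arg (z - q)), ⟨hz, mem_univ _⟩, ?_⟩
      simp only
      rw [Complex.norm_mul_exp_arg_mul_I]
      ring
    · rintro ⟨⟨s, θ⟩, ⟨hs, -⟩, rfl⟩
      rw [mem_compl_iff, mem_closedBall, dist_eq_norm, not_le, add_sub_cancel_left, norm_mul,
        Complex.norm_exp_ofReal_mul_I, mul_one, Complex.norm_real, Real.norm_eq_abs]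
      exact lt_of_lt_of_le hs (le_abs_self _)
  rw [this]
  apply IsPreconnected.image
  · exact (isPreconnected_Ioi).prod isPreconnected_univ
  · apply Continuous.continuousOn
    fun_prop

end Pool.Agent.Helper65.EU
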