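import Mathlib
import Pool.Agent.Helper65.EU.Wind1

/-! The jump of the winding integral across the curve is bounded. -/

set_option autoImplicit false

open Topology Filter Metric Set MeasureTheory
open scoped Real

namespace Pool.Agent.Helper65.EU

theorem near_lower {Γ Γ' : ℝ → ℂ} {t0 η : ℝ}
    (hΓ : ∀ t ∈ Icc (t0 - η) (t0 + η), HasDerivAt Γ (Γ' t) t)
    (hcl : ∀ t ∈ Icc (t0 - η) (t0 + η), ‖Γ' t - Γ' t0‖ ≤ ‖Γ' t0‖ / 2)
    (hη : 0 < η) {y : ℝ} :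
    ∀ t ∈ Icc (t0 - η) (t0 + η), ‖Γ' t0‖ / 2 * Real.sqrt ((t - t0) ^ 2 + y ^ 2) ≤
      ‖Γ t - (Γ t0 + y * Complex.I * Γ' t0)‖ := by
  intro t ht
  have ht0 : t0 ∈ Icc (t0 - η) (t0 + η) := ⟨by linarith, by linarith⟩
  have h1 : ‖(Γ t - Γ' t0 * t) - (Γ t0 - Γ' t0 * t0)‖ ≤ ‖Γ' t0‖ / 2 * ‖t - t0‖ := by
    apply (convex_Icc (t0 - η) (t0 + η)).norm_image_sub_le_of_norm_hasDerivWithin_le
      (f := fun t : ℝ => Γ t - Γ' t0 * t) (f' := fun t => Γ' t - Γ' t0) ?_ hcl ht0 ht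
    intro s hs
    have e1 : HasDerivAt (fun t : ℝ => Γ' t0 * (t : ℂ)) (Γ' t0) s := by
      simpa using (Complex.ofRealCLM.hasDerivAt (x := s)).const_mul (Γ' t0)
    exact ((hΓ s hs).sub e1).hasDerivWithinAt
  have h2 : ‖(Γ' t0 : ℂ) * (((t - t0 : ℝ) : ℂ) - y * Complex.I)‖ =
      ‖Γ' t0‖ * Real.sqrt ((t - t0) ^ 2 + y ^ 2) := by
    rw [norm_mul]
    congr 1
    rw [Complex.norm_def, Complex.normSq_apply]
    congr 1
    simp
    ring
  have h3 : |t - t0| ≤ Real.sqrt ((t - t0) ^ 2 + y ^ 2) := by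
    apply Real.abs_le_sqrt
    nlinarith [sq_nonneg y]
  have h4 : Γ t - (Γ t0 + y * Complex.I * Γ' t0) =
      Γ' t0 * (((t - t0 : ℝ) : ℂ) - y * Complex.I) +
      ((Γ t - Γ' t0 * t) - (Γ t0 - Γ' t0 * t0)) := by
    push_cast
    ring
  rw [h4]
  have h5 := norm_sub_le_norm_add (Γ' t0 * (((t - t0 : ℝ) : ℂ) - y * Complex.I))
    ((Γ t - Γ' t0 * t) - (Γ t0 - Γ' t0 * t0))
  rw [h2] at h5
  rw [Real.norm_eq_abs] at h1
  have h6 : ‖Γ' t0‖ / 2 * |t - t0| ≤ ‖Γ' t0‖ / 2 * Real.sqrt ((t - t0) ^ 2 + y ^ 2) :=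
    mul_le_mul_of_nonneg_left h3 (by positivity)
  linarith

theorem near_bound {Γ Γ' : ℝ → ℂ} {t0 η : ℝ} (hη : 0 < η) (hv : Γ' t0 ≠ 0)
    (hΓ : ∀ t ∈ Icc (t0 - η) (t0 + η), HasDerivAt Γ (Γ' t) t)
    (hc : ContinuousOn Γ' (Icc (t0 - η) (t0 + η)))
    (hcl : ∀ t ∈ Icc (t0 - η) (t0 + η), ‖Γ' t - Γ' t0‖ ≤ ‖Γ' t0‖ / 2) {y : ℝ} (hy : 0 < y) :
    ‖J Γ Γ' (t0 - η) (t0 + η) (Γ t0 + y * Complex.I * Γ' t0) -
      J Γ Γ' (t0 - η) (t0 + η) (Γ t0 - y * Complex.I * Γ' t0)‖ ≤ 12 * π ∧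
    (∀ t ∈ Icc (t0 - η) (t0 + η), Γ t ≠ Γ t0 + y * Complex.I * Γ' t0) ∧
    (∀ t ∈ Icc (t0 - η) (t0 + η), Γ t ≠ Γ t0 - y * Complex.I * Γ' t0) := by
  have hvp : 0 < ‖Γ' t0‖ := norm_pos_iff.2 hv
  have hl1 := near_lower hΓ hcl hη (y := y)
  have hl2 : ∀ t ∈ Icc (t0 - η) (t0 + η), ‖Γ' t0‖ / 2 * Real.sqrt ((t - t0) ^ 2 + y ^ 2) ≤
      ‖Γ t - (Γ t0 - y * Complex.I * Γ' t0)‖ := by
    intro t ht
    have := near_lower hΓ hcl hη (y := -y) t ht
    rw [neg_sq] at this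
    convert this using 3
    push_cast
    ring
  have hsq : ∀ t : ℝ, 0 < (t - t0) ^ 2 + y ^ 2 := fun t => by positivity
  have hn1 : ∀ t ∈ Icc (t0 - η) (t0 + η), Γ t ≠ Γ t0 + y * Complex.I * Γ' t0 := by
    intro t ht h
    have := hl1 t ht
    rw [h, sub_self, norm_zero] at this
    have h2 := Real.sqrt_pos.2 (hsq t)
    nlinarith [mul_pos hvp h2]
  have hn2 : ∀ t ∈ Icc (t0 - η) (t0 + η), Γ t ≠ Γ t0 - y * Complex.I * Γ' t0 := by
    intro t ht h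
    have := hl2 t ht
    rw [h, sub_self, norm_zero] at this
    have h2 := Real.sqrt_pos.2 (hsq t)
    nlinarith [mul_pos hvp h2]
  refine ⟨?_, hn1, hn2⟩
  have hle : t0 - η ≤ t0 + η := by linarith
  have h1 : IntervalIntegrable (fun t => Γ' t / (Γ t - (Γ t0 + y * Complex.I * Γ' t0))) volume
      (t0 - η) (t0 + η) :=
    (by rw [uIcc_of_le hle]; exact J_int hΓ hc hn1 : ContinuousOn _ (uIcc _ _)).intervalIntegrable
  have h2 : IntervalIntegrable (fun t => Γ' t / (Γ t - (Γ t0 - y * Complex.I * Γ' t0))) volume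
      (t0 - η) (t0 + η) :=
    (by rw [uIcc_of_le hle]; exact J_int hΓ hc hn2 : ContinuousOn _ (uIcc _ _)).intervalIntegrable
  unfold J
  rw [← intervalIntegral.integral_sub h1 h2]
  have hprim : ∀ t : ℝ, HasDerivAt (fun t : ℝ => 12 * Real.arctan ((t - t0) / y))
      (12 * (y / ((t - t0) ^ 2 + y ^ 2))) t := by
    intro t
    have e1 : HasDerivAt (fun t : ℝ => (t - t0) / y) (1 / y) t :=
      ((hasDerivAt_id t).sub_const t0).div_const y
    have e2 := (e1.arctan).const_mul 12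
    refine e2.congr_deriv ?_
    have := hsq t
    field_simp
    ring
  have hci : Continuous fun t : ℝ => 12 * (y / ((t - t0) ^ 2 + y ^ 2)) := by
    apply Continuous.mul continuous_const
    apply Continuous.div continuous_const (by fun_prop)
    intro t
    exact (hsq t).ne'
  have hint := intervalIntegral.integral_eq_sub_of_hasDerivAt
    (a := t0 - η) (b := t0 + η) (fun t _ => hprim t) (hci.intervalIntegrable _ _)
  have hb := intervalIntegral.norm_integral_le_of_norm_le (a := t0 - η) (b := t0 + η) (μ := volume)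
    (f := fun t => Γ' t / (Γ t - (Γ t0 + y * Complex.I * Γ' t0)) -
      Γ' t / (Γ t - (Γ t0 - y * Complex.I * Γ' t0)))
    (g := fun t : ℝ => 12 * (y / ((t - t0) ^ 2 + y ^ 2))) hle (by
      refine Eventually.of_forall fun t ht => ?_
      have ht' : t ∈ Icc (t0 - η) (t0 + η) := ⟨ht.1.le, ht.2⟩
      have e1 : Γ t - (Γ t0 + y * Complex.I * Γ' t0) ≠ 0 := sub_ne_zero.2 (hn1 t ht')
      have e2 : Γ t - (Γ t0 - y * Complex.I * Γ' t0) ≠ 0 := sub_ne_zero.2 (hn2 t ht')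
      have e3 : Γ' t / (Γ t - (Γ t0 + y * Complex.I * Γ' t0)) -
          Γ' t / (Γ t - (Γ t0 - y * Complex.I * Γ' t0)) =
          Γ' t * (2 * y * Complex.I * Γ' t0) / ((Γ t - (Γ t0 + y * Complex.I * Γ' t0)) *
            (Γ t - (Γ t0 - y * Complex.I * Γ' t0))) := by
        field_simp
        ring
      rw [e3, norm_div, norm_mul (Γ' t) _, norm_mul (Γ t - _) (Γ t - _)]
      have e4 : ‖Γ' t‖ ≤ 3 / 2 * ‖Γ' t0‖ := by
        have a1 := hcl t ht'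
        have a2 := norm_le_norm_add_norm_sub' (Γ' t) (Γ' t0)
        linarith
      have e5 : ‖2 * (y : ℂ) * Complex.I * Γ' t0‖ = 2 * y * ‖Γ' t0‖ := by
        simp [abs_of_pos hy]
      have e6 : ‖Γ' t0‖ ^ 2 / 4 * ((t - t0) ^ 2 + y ^ 2) ≤
          ‖Γ t - (Γ t0 + y * Complex.I * Γ' t0)‖ * ‖Γ t - (Γ t0 - y * Complex.I * Γ' t0)‖ := by
        have a1 := mul_le_mul (hl1 t ht') (hl2 t ht') (by positivity) (norm_nonneg _)
        have a2 : Real.sqrt ((t - t0) ^ 2 + y ^ 2) * Real.sqrt ((t - t0) ^ 2 + y ^ 2) =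
            (t - t0) ^ 2 + y ^ 2 := Real.mul_self_sqrt (hsq t).le
        have a3 : ‖Γ' t0‖ ^ 2 / 4 * ((t - t0) ^ 2 + y ^ 2) = ‖Γ' t0‖ / 2 *
            Real.sqrt ((t - t0) ^ 2 + y ^ 2) * (‖Γ' t0‖ / 2 *
            Real.sqrt ((t - t0) ^ 2 + y ^ 2)) := by
          generalize Real.sqrt ((t - t0) ^ 2 + y ^ 2) = w at a2
          linear_combination (-(‖Γ' t0‖ ^ 2 / 4)) * a2
        rw [a3]
        exact a1
      rw [e5]
      have e7 : 12 * (y / ((t - t0) ^ 2 + y ^ 2)) = (3 / 2 * ‖Γ' t0‖ * (2 * y * ‖Γ' t0‖)) /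
          (‖Γ' t0‖ ^ 2 / 4 * ((t - t0) ^ 2 + y ^ 2)) := by
        have := hsq t
        field_simp
        ring
      rw [e7]
      exact div_le_div₀ (by positivity) (mul_le_mul_of_nonneg_right e4 (by positivity))
        (mul_pos (by positivity) (hsq t)) e6) (hci.intervalIntegrable _ _)
  refine hb.trans ?_
  rw [hint]
  have a1 := Real.arctan_lt_pi_div_two ((t0 + η - t0) / y)
  have a2 := Real.neg_pi_div_two_lt_arctan ((t0 - η - t0) / y)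
  linarith

end Pool.Agent.Helper65.EU
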