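import Mathlib
import Pool.Agent.Helper65.EU.Wind2

/-! Bound of the winding numbers of a closed curve composed of an injective curve, which is a line in
suitable charts, and a short closing curve. -/

set_option autoImplicit false

open Topology Filter Metric Set MeasureTheory
open scoped Real

namespace Pool.Agent.Helper65.EU

/-- the data of the closed curve -/
structure Loop (Γ Γ' c c' : ℝ → ℂ) (s0 s1 : ℝ) : Prop where
  lt : s0 < s1
  hd : ∀ t ∈ Icc s0 s1, HasDerivAt Γ (Γ' t) t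
  hc : ContinuousOn Γ' (Icc s0 s1)
  h0 : ∀ t ∈ Icc s0 s1, Γ' t ≠ 0
  inj : InjOn Γ (Icc s0 s1)
  cd : ∀ v ∈ Icc (0 : ℝ) 1, HasDerivAt c (c' v) v
  cc : ContinuousOn c' (Icc 0 1)
  c0 : c 0 = Γ s1
  c1 : c 1 = Γ s0
  dis : ∀ t ∈ Ioo s0 s1, ∀ v ∈ Icc (0 : ℝ) 1, Γ t ≠ c v

namespace Loop

variable {Γ Γ' c c' : ℝ → ℂ} {s0 s1 : ℝ} (L : Loop Γ Γ' c c' s0 s1)
include L

/-- the winding integral -/
noncomputable def N (_ : Loop Γ Γ' c c' s0 s1) (z : ℂ) : ℂ := J Γ Γ' s0 s1 z + J c c' 0 1 z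

/-- the curve -/
def κ (_ : Loop Γ Γ' c c' s0 s1) : Set ℂ := Γ '' Icc s0 s1 ∪ c '' Icc 0 1

theorem cont : ContinuousOn Γ (Icc s0 s1) := fun t ht => (L.hd t ht).continuousAt.continuousWithinAt

theorem ccont : ContinuousOn c (Icc 0 1) := fun t ht => (L.cd t ht).continuousAt.continuousWithinAt

theorem cpt : IsCompact L.κ :=
  (isCompact_Icc.image_of_continuousOn L.cont).union (isCompact_Icc.image_of_continuousOn L.ccont)

theorem not_mem {z : ℂ} (hz : z ∉ L.κ) :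
    (∀ t ∈ Icc s0 s1, Γ t ≠ z) ∧ ∀ v ∈ Icc (0 : ℝ) 1, c v ≠ z := by
  constructor
  · intro t ht h
    exact hz (Or.inl ⟨t, ht, h⟩)
  · intro v hv h
    exact hz (Or.inr ⟨v, hv, h⟩)

theorem exp_N {z : ℂ} (hz : z ∉ L.κ) : Complex.exp (L.N z) = 1 := by
  obtain ⟨h1, h2⟩ := L.not_mem hz
  unfold N
  rw [Complex.exp_add, exp_J L.lt.le L.hd L.hc h1, exp_J zero_le_one L.cd L.cc h2, L.c0, L.c1]
  have e1 : Γ s0 - z ≠ 0 := sub_ne_zero.2 (h1 s0 (left_mem_Icc.2 L.lt.le))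
  have e2 : Γ s1 - z ≠ 0 := sub_ne_zero.2 (h1 s1 (right_mem_Icc.2 L.lt.le))
  field_simp

theorem int_N {z : ℂ} (hz : z ∉ L.κ) : ∃ n : ℤ, L.N z = n * (2 * π * Complex.I) :=
  Complex.exp_eq_one_iff.1 (L.exp_N hz)

theorem eq_of_close {z z' : ℂ} (hz : z ∉ L.κ) (hz' : z' ∉ L.κ) (h : ‖L.N z - L.N z'‖ < 1) :
    L.N z = L.N z' := by
  obtain ⟨n, hn⟩ := L.int_N hz
  obtain ⟨m, hm⟩ := L.int_N hz'
  rw [hn, hm] at h ⊢
  have e1 : ((n : ℂ) * (2 * π * Complex.I) - m * (2 * π * Complex.I)) =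
      ((n - m : ℤ) : ℂ) * (2 * π * Complex.I) := by push_cast; ring
  rw [e1, norm_mul] at h
  have e2 : ‖(2 * π * Complex.I : ℂ)‖ = 2 * π := by
    simp [abs_of_pos Real.pi_pos]
  rw [e2, Complex.norm_intCast] at h
  have h3 : |((n - m : ℤ) : ℝ)| < 1 := by
    have := Real.pi_gt_three
    by_contra hcon
    push Not at hcon
    nlinarith
  have h4 : n - m = 0 := by
    rw [← Int.cast_abs] at h3
    have : |n - m| < 1 := by exact_mod_cast h3
    exact Int.abs_lt_one_iff.1 this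
  have h5 : n = m := by omega
  rw [h5]

/-- bounds of the derivatives -/
theorem bdd : ∃ M : ℝ, 0 ≤ M ∧ (∀ t ∈ Icc s0 s1, ‖Γ' t‖ ≤ M) ∧ ∀ v ∈ Icc (0 : ℝ) 1, ‖c' v‖ ≤ M := by
  obtain ⟨M1, h1⟩ := isCompact_Icc.exists_bound_of_continuousOn L.hc
  obtain ⟨M2, h2⟩ := isCompact_Icc.exists_bound_of_continuousOn L.cc
  refine ⟨max (max M1 M2) 0, le_max_right _ _, fun t ht => ?_, fun v hv => ?_⟩
  · exact (h1 t ht).trans ((le_max_left _ _).trans (le_max_left _ _))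
  · exact (h2 v hv).trans ((le_max_right _ _).trans (le_max_left _ _))

theorem locc {z : ℂ} (hz : z ∉ L.κ) : ∀ᶠ w in 𝓝 z, L.N w = L.N z := by
  obtain ⟨M, hM0, hM1, hM2⟩ := L.bdd
  have hopen : IsOpen (L.κ)ᶜ := L.cpt.isClosed.isOpen_compl
  obtain ⟨δ, hδ, hball⟩ := Metric.isOpen_iff.1 hopen z hz
  have hfar : ∀ w ∈ ball z (δ / 2), ∀ x ∈ L.κ, δ / 2 ≤ ‖x - w‖ := by
    intro w hw x hx
    by_contra hcon
    push Not at hcon
    apply hball _ hx
    rw [mem_ball] at hw ⊢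
    calc dist x z ≤ dist x w + dist w z := dist_triangle _ _ _
      _ < δ / 2 + δ / 2 := add_lt_add (by rwa [dist_eq_norm]) hw
      _ = δ := by ring
  set C : ℝ := M / (δ / 2) ^ 2 * (s1 - s0) + M / (δ / 2) ^ 2 * (1 - 0) with hC
  have hC0 : 0 ≤ C := by
    have := sub_nonneg.2 L.lt.le
    positivity
  have hbd : ∀ w ∈ ball z (δ / 2), ‖L.N w - L.N z‖ ≤ C * ‖w - z‖ := by
    intro w hw
    have hzz : z ∈ ball z (δ / 2) := mem_ball_self (by positivity)
    have e1 := J_sub (z := w) (z' := z) (δ := δ / 2) L.lt.le L.hd L.hc hM1 (by positivity)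
      (fun t ht => hfar w hw _ (Or.inl ⟨t, ht, rfl⟩)) (fun t ht => hfar z hzz _ (Or.inl ⟨t, ht, rfl⟩))
    have e2 := J_sub (z := w) (z' := z) (δ := δ / 2) zero_le_one L.cd L.cc hM2 (by positivity)
      (fun t ht => hfar w hw _ (Or.inr ⟨t, ht, rfl⟩)) (fun t ht => hfar z hzz _ (Or.inr ⟨t, ht, rfl⟩))
    unfold N
    calc ‖J Γ Γ' s0 s1 w + J c c' 0 1 w - (J Γ Γ' s0 s1 z + J c c' 0 1 z)‖ =
        ‖(J Γ Γ' s0 s1 w - J Γ Γ' s0 s1 z) + (J c c' 0 1 w - J c c' 0 1 z)‖ := by ring_nf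
      _ ≤ _ := norm_add_le _ _
      _ ≤ _ := add_le_add e1 e2
      _ = C * ‖w - z‖ := by rw [hC]; ring
  have hr : 0 < min (δ / 2) (1 / (C + 1)) := lt_min (by positivity) (by positivity)
  filter_upwards [ball_mem_nhds z hr] with w hw
  have hw1 : w ∈ ball z (δ / 2) := ball_subset_ball (min_le_left _ _) hw
  have hw2 : ‖w - z‖ < 1 / (C + 1) := by
    rw [← dist_eq_norm]
    exact lt_of_lt_of_le (mem_ball.1 hw) (min_le_right _ _)
  apply L.eq_of_close
  · exact hball (ball_subset_ball (by linarith) hw1)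
  · exact hz
  · refine (hbd w hw1).trans_lt ?_
    rw [lt_div_iff₀ (by positivity)] at hw2
    nlinarith [norm_nonneg (w - z)]

/-- far away the integral vanishes -/
theorem far : ∀ q : ℂ, ∀ r : ℝ, ∃ z, z ∉ closedBall q r ∧ z ∉ L.κ ∧ L.N z = 0 := by
  intro q r
  obtain ⟨M, hM0, hM1, hM2⟩ := L.bdd
  obtain ⟨R, hR⟩ := L.cpt.isBounded.subset_closedBall (0 : ℂ)
  set ℓ : ℝ := M * (s1 - s0) + M * (1 - 0) + 1 with hℓ
  have hℓ0 : 1 ≤ ℓ := by
    have := mul_nonneg hM0 (sub_nonneg.2 L.lt.le)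
    rw [hℓ]; nlinarith
  set z : ℂ := ((|R| + ‖q‖ + |r| + ℓ + 1 : ℝ) : ℂ) with hz
  have hzn : ‖z‖ = |R| + ‖q‖ + |r| + ℓ + 1 := by
    rw [hz, Complex.norm_real, Real.norm_eq_abs, abs_of_pos]
    have := abs_nonneg R; have := norm_nonneg q; have := abs_nonneg r
    linarith
  have hfar : ∀ x ∈ L.κ, ℓ + 1 ≤ ‖x - z‖ := by
    intro x hx
    have h1 := hR hx
    rw [mem_closedBall, dist_zero_right] at h1
    have h2 := norm_sub_norm_le z x
    rw [norm_sub_rev] at h2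
    have := abs_nonneg R; have := norm_nonneg q; have := abs_nonneg r
    have := le_abs_self R
    linarith
  have hzκ : z ∉ L.κ := by
    intro h
    have := hfar z h
    rw [sub_self, norm_zero] at this
    linarith
  refine ⟨z, ?_, hzκ, ?_⟩
  · rw [mem_closedBall, dist_eq_norm, not_le]
    have h2 := norm_sub_norm_le z q
    have := abs_nonneg R; have := le_abs_self r
    linarith
  · obtain ⟨n, hn⟩ := L.int_N hzκ
    have hb1 : ‖J Γ Γ' s0 s1 z‖ ≤ M / (ℓ + 1) * |s1 - s0| := by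
      apply intervalIntegral.norm_integral_le_of_norm_le_const
      intro t ht
      rw [uIoc_of_le L.lt.le] at ht
      have ht' : t ∈ Icc s0 s1 := ⟨ht.1.le, ht.2⟩
      rw [norm_div]
      exact div_le_div₀ hM0 (hM1 t ht') (by linarith) (hfar _ (Or.inl ⟨t, ht', rfl⟩))
    have hb2 : ‖J c c' 0 1 z‖ ≤ M / (ℓ + 1) * |1 - 0| := by
      apply intervalIntegral.norm_integral_le_of_norm_le_const
      intro t ht
      rw [uIoc_of_le zero_le_one] at ht
      have ht' : t ∈ Icc (0 : ℝ) 1 := ⟨ht.1.le, ht.2⟩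
      rw [norm_div]
      exact div_le_div₀ hM0 (hM2 t ht') (by linarith) (hfar _ (Or.inr ⟨t, ht', rfl⟩))
    have hb : ‖L.N z‖ < 1 := by
      unfold N
      refine (norm_add_le _ _).trans_lt ?_
      rw [abs_of_nonneg (sub_nonneg.2 L.lt.le)] at hb1
      rw [abs_of_nonneg (by norm_num : (0 : ℝ) ≤ 1 - 0)] at hb2
      have h3 : M / (ℓ + 1) * (s1 - s0) + M / (ℓ + 1) * (1 - 0) < 1 := by
        have : M / (ℓ + 1) * (s1 - s0) + M / (ℓ + 1) * (1 - 0) = (ℓ - 1) / (ℓ + 1) := by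
          rw [hℓ]; field_simp; ring
        rw [this, div_lt_one (by linarith)]
        linarith
      linarith
    rw [hn] at hb ⊢
    rw [norm_mul, Complex.norm_intCast] at hb
    have e2 : ‖(2 * π * Complex.I : ℂ)‖ = 2 * π := by
      simp [abs_of_pos Real.pi_pos]
    rw [e2] at hb
    have h3 : |(n : ℝ)| < 1 := by
      have := Real.pi_gt_three
      by_contra hcon
      push Not at hcon
      nlinarith
    have h4 : n = 0 := by
      rw [← Int.cast_abs] at h3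
      have : |n| < 1 := by exact_mod_cast h3
      exact Int.abs_lt_one_iff.1 this
    rw [h4]
    simp

end Loop

end Pool.Agent.Helper65.EU
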