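import Mathlib
import Pool.Agent.Helper65.EU.Wind3

/-! Bound of the winding numbers, continued. -/

set_option autoImplicit false

open Topology Filter Metric Set MeasureTheory
open scoped Real

namespace Pool.Agent.Helper65.EU

namespace Loop

variable {Γ Γ' c c' : ℝ → ℂ} {s0 s1 : ℝ} (L : Loop Γ Γ' c c' s0 s1)
include L

/-- the rest of the curve stays away -/
theorem rest {t0 : ℝ} (ht0 : t0 ∈ Ioo s0 s1) {η : ℝ} (hη : 0 < η) :
    ∃ d : ℝ, 0 < d ∧ (∀ t ∈ Icc s0 s1, η ≤ |t - t0| → d ≤ ‖Γ t - Γ t0‖) ∧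
      ∀ v ∈ Icc (0 : ℝ) 1, d ≤ ‖c v - Γ t0‖ := by
  set K : Set ℂ := Γ '' (Icc s0 s1 ∩ {t | η ≤ |t - t0|}) ∪ c '' Icc 0 1 with hK
  have hKc : IsCompact K := by
    apply IsCompact.union
    · apply IsCompact.image_of_continuousOn
      · apply isCompact_Icc.inter_right
        exact isClosed_le continuous_const (by fun_prop)
      · exact L.cont.mono inter_subset_left
    · exact isCompact_Icc.image_of_continuousOn L.ccont
  have hn : Γ t0 ∉ K := by
    rintro (⟨t, ⟨ht, hte⟩, h⟩ | ⟨v, hv, h⟩)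
    · have := L.inj ht (Ioo_subset_Icc_self ht0) h
      rw [this] at hte
      simp at hte
      linarith
    · exact L.dis t0 ht0 v hv h.symm
  obtain ⟨d, hd, hball⟩ := Metric.isOpen_iff.1 hKc.isClosed.isOpen_compl _ hn
  refine ⟨d, hd, fun t ht hte => ?_, fun v hv => ?_⟩
  · by_contra hcon
    push Not at hcon
    exact hball (by rw [mem_ball, dist_eq_norm]; exact hcon) (Or.inl ⟨t, ⟨ht, hte⟩, rfl⟩)
  · by_contra hcon
    push Not at hcon
    exact hball (by rw [mem_ball, dist_eq_norm]; exact hcon) (Or.inr ⟨v, hv, rfl⟩)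

theorem jump {t0 : ℝ} (ht0 : t0 ∈ Ioo s0 s1) : ∀ᶠ y : ℝ in 𝓝[>] 0,
    ‖L.N (Γ t0 + y * Complex.I * Γ' t0) - L.N (Γ t0 - y * Complex.I * Γ' t0)‖ ≤ 12 * π + 1 ∧
    Γ t0 + y * Complex.I * Γ' t0 ∉ L.κ ∧ Γ t0 - y * Complex.I * Γ' t0 ∉ L.κ := by
  have ht0' := Ioo_subset_Icc_self ht0
  have hv := L.h0 t0 ht0'
  have hvp : 0 < ‖Γ' t0‖ := norm_pos_iff.2 hv
  have hca : ContinuousAt Γ' t0 := L.hc.continuousAt (Icc_mem_nhds ht0.1 ht0.2)
  obtain ⟨η1, hη1, hcl1⟩ := Metric.continuousAt_iff.1 hca (‖Γ' t0‖ / 2) (by positivity)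
  set η : ℝ := min (η1 / 2) (min ((t0 - s0) / 2) ((s1 - t0) / 2)) with hηd
  have hs0 : 0 < t0 - s0 := by linarith [ht0.1]
  have hs1 : 0 < s1 - t0 := by linarith [ht0.2]
  have hη : 0 < η := lt_min (by positivity) (lt_min (by positivity) (by positivity))
  have hη2 : η ≤ η1 / 2 := min_le_left _ _
  have hη3 : η ≤ (t0 - s0) / 2 := (min_le_right _ _).trans (min_le_left _ _)
  have hη4 : η ≤ (s1 - t0) / 2 := (min_le_right _ _).trans (min_le_right _ _)
  have hsub : Icc (t0 - η) (t0 + η) ⊆ Icc s0 s1 := fun t ht =>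
    ⟨by linarith [ht.1], by linarith [ht.2]⟩
  have hcl : ∀ t ∈ Icc (t0 - η) (t0 + η), ‖Γ' t - Γ' t0‖ ≤ ‖Γ' t0‖ / 2 := by
    intro t ht
    rw [← dist_eq_norm]
    apply (hcl1 _).le
    rw [Real.dist_eq, abs_lt]
    constructor <;> linarith [ht.1, ht.2]
  obtain ⟨d, hd, hd1, hd2⟩ := L.rest ht0 hη
  obtain ⟨M, hM0, hM1, hM2⟩ := L.bdd
  -- small y
  set len : ℝ := (s1 - s0) + 1 with hlen
  have hlen0 : 0 < len := by linarith [L.lt]
  set y0 : ℝ := min (d / (2 * ‖Γ' t0‖)) (1 / (M * (2 * ‖Γ' t0‖) / (d / 2) ^ 2 * (2 * len) + 1))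
    with hy0
  have hy00 : 0 < y0 := by
    apply lt_min
    · positivity
    · have : 0 ≤ M * (2 * ‖Γ' t0‖) / (d / 2) ^ 2 * (2 * len) := by positivity
      positivity
  filter_upwards [Ioo_mem_nhdsGT hy00] with y hy
  have hyp : 0 < y := hy.1
  have hy1 : y * ‖Γ' t0‖ ≤ d / 2 := by
    have := hy.2.le.trans (min_le_left _ _)
    rw [le_div_iff₀ (by positivity)] at this
    linarith
  have hy2 : M * (2 * ‖Γ' t0‖) / (d / 2) ^ 2 * (2 * len) * y ≤ 1 := by
    have h := hy.2.le.trans (min_le_right _ _)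
    have h0 : 0 ≤ M * (2 * ‖Γ' t0‖) / (d / 2) ^ 2 * (2 * len) := by positivity
    rw [le_div_iff₀ (by positivity)] at h
    nlinarith
  have hnorm : ‖(y : ℂ) * Complex.I * Γ' t0‖ = y * ‖Γ' t0‖ := by
    simp [abs_of_pos hyp]
  obtain ⟨hnear, hn1, hn2⟩ := near_bound hη hv (fun t ht => L.hd t (hsub ht)) (L.hc.mono hsub) hcl hyp
  have hA1 : ∀ t ∈ Icc s0 s1, η ≤ |t - t0| → d / 2 ≤ ‖Γ t - (Γ t0 + y * Complex.I * Γ' t0)‖ := by
    intro t ht hte
    have h1 := hd1 t ht hte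
    have h2 : Γ t - (Γ t0 + y * Complex.I * Γ' t0) = (Γ t - Γ t0) - y * Complex.I * Γ' t0 := by ring
    rw [h2]
    have h3 := norm_sub_norm_le (Γ t - Γ t0) (y * Complex.I * Γ' t0)
    linarith
  have hA2 : ∀ t ∈ Icc s0 s1, η ≤ |t - t0| → d / 2 ≤ ‖Γ t - (Γ t0 - y * Complex.I * Γ' t0)‖ := by
    intro t ht hte
    have h1 := hd1 t ht hte
    have h2 : Γ t - (Γ t0 - y * Complex.I * Γ' t0) = (Γ t - Γ t0) + y * Complex.I * Γ' t0 := by ring
    rw [h2]
    have h3 := norm_sub_le_norm_add (Γ t - Γ t0) (y * Complex.I * Γ' t0)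
    linarith
  have hB1 : ∀ v ∈ Icc (0 : ℝ) 1, d / 2 ≤ ‖c v - (Γ t0 + y * Complex.I * Γ' t0)‖ := by
    intro t ht
    have h1 := hd2 t ht
    have h2 : c t - (Γ t0 + y * Complex.I * Γ' t0) = (c t - Γ t0) - y * Complex.I * Γ' t0 := by ring
    rw [h2]
    have h3 := norm_sub_norm_le (c t - Γ t0) (y * Complex.I * Γ' t0)
    linarith
  have hB2 : ∀ v ∈ Icc (0 : ℝ) 1, d / 2 ≤ ‖c v - (Γ t0 - y * Complex.I * Γ' t0)‖ := by
    intro t ht
    have h1 := hd2 t ht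
    have h2 : c t - (Γ t0 - y * Complex.I * Γ' t0) = (c t - Γ t0) + y * Complex.I * Γ' t0 := by ring
    rw [h2]
    have h3 := norm_sub_le_norm_add (c t - Γ t0) (y * Complex.I * Γ' t0)
    linarith
  have hd2' : 0 < d / 2 := by positivity
  have hk1 : Γ t0 + y * Complex.I * Γ' t0 ∉ L.κ := by
    rintro (⟨t, ht, h⟩ | ⟨v, hv, h⟩)
    · by_cases hte : η ≤ |t - t0|
      · have := hA1 t ht hte
        rw [h, sub_self, norm_zero] at this
        linarith
      · push Not at hte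
        rw [abs_lt] at hte
        exact hn1 t ⟨by linarith, by linarith⟩ h
    · have := hB1 v hv
      rw [h, sub_self, norm_zero] at this
      linarith
  have hk2 : Γ t0 - y * Complex.I * Γ' t0 ∉ L.κ := by
    rintro (⟨t, ht, h⟩ | ⟨v, hv, h⟩)
    · by_cases hte : η ≤ |t - t0|
      · have := hA2 t ht hte
        rw [h, sub_self, norm_zero] at this
        linarith
      · push Not at hte
        rw [abs_lt] at hte
        exact hn2 t ⟨by linarith, by linarith⟩ h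
    · have := hB2 v hv
      rw [h, sub_self, norm_zero] at this
      linarith
  refine ⟨?_, hk1, hk2⟩
  -- splitting
  have hzz : ‖(Γ t0 + y * Complex.I * Γ' t0) - (Γ t0 - y * Complex.I * Γ' t0)‖ = 2 * ‖Γ' t0‖ * y := by
    have : (Γ t0 + y * Complex.I * Γ' t0) - (Γ t0 - y * Complex.I * Γ' t0) =
        2 * (y * Complex.I * Γ' t0) := by ring
    rw [this, norm_mul, hnorm]
    simp
    ring
  have hsplit : ∀ z : ℂ, (∀ t ∈ Icc s0 s1, Γ t ≠ z) → J Γ Γ' s0 s1 z =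
      J Γ Γ' s0 (t0 - η) z + J Γ Γ' (t0 - η) (t0 + η) z + J Γ Γ' (t0 + η) s1 z := by
    intro z hz
    have hci := J_int L.hd L.hc hz
    have i1 : IntervalIntegrable (fun t => Γ' t / (Γ t - z)) volume s0 (t0 - η) :=
      (hci.mono (by rw [uIcc_of_le (by linarith)]; exact Icc_subset_Icc_right (by linarith))).intervalIntegrable
    have i2 : IntervalIntegrable (fun t => Γ' t / (Γ t - z)) volume (t0 - η) (t0 + η) :=
      (hci.mono (by rw [uIcc_of_le (by linarith)]; exact hsub)).intervalIntegrable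
    have i3 : IntervalIntegrable (fun t => Γ' t / (Γ t - z)) volume (t0 + η) s1 :=
      (hci.mono (by rw [uIcc_of_le (by linarith)]; exact Icc_subset_Icc_left (by linarith))).intervalIntegrable
    unfold J
    rw [intervalIntegral.integral_add_adjacent_intervals i1 i2,
      intervalIntegral.integral_add_adjacent_intervals (i1.trans i2) i3]
  have g1 := J_sub (γ := Γ) (γ' := Γ') (a := s0) (b := t0 - η) (z := Γ t0 + y * Complex.I * Γ' t0)
    (z' := Γ t0 - y * Complex.I * Γ' t0) (M := M) (δ := d / 2) (by linarith)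
    (fun t ht => L.hd t ⟨ht.1, by linarith [ht.2]⟩) (L.hc.mono (Icc_subset_Icc_right (by linarith)))
    (fun t ht => hM1 t ⟨ht.1, by linarith [ht.2]⟩) hd2'
    (fun t ht => hA1 t ⟨ht.1, by linarith [ht.2]⟩ (by rw [abs_of_nonpos (by linarith [ht.2])]; linarith [ht.2]))
    (fun t ht => hA2 t ⟨ht.1, by linarith [ht.2]⟩ (by rw [abs_of_nonpos (by linarith [ht.2])]; linarith [ht.2]))
  have g2 := J_sub (γ := Γ) (γ' := Γ') (a := t0 + η) (b := s1) (z := Γ t0 + y * Complex.I * Γ' t0)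
    (z' := Γ t0 - y * Complex.I * Γ' t0) (M := M) (δ := d / 2) (by linarith)
    (fun t ht => L.hd t ⟨by linarith [ht.1], ht.2⟩) (L.hc.mono (Icc_subset_Icc_left (by linarith)))
    (fun t ht => hM1 t ⟨by linarith [ht.1], ht.2⟩) hd2'
    (fun t ht => hA1 t ⟨by linarith [ht.1], ht.2⟩ (by rw [abs_of_nonneg (by linarith [ht.1])]; linarith [ht.1]))
    (fun t ht => hA2 t ⟨by linarith [ht.1], ht.2⟩ (by rw [abs_of_nonneg (by linarith [ht.1])]; linarith [ht.1]))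
  have g3 := J_sub (γ := c) (γ' := c') (a := 0) (b := 1) (z := Γ t0 + y * Complex.I * Γ' t0)
    (z' := Γ t0 - y * Complex.I * Γ' t0) (M := M) (δ := d / 2) zero_le_one L.cd L.cc hM2 hd2' hB1 hB2
  rw [hzz] at g1 g2 g3
  unfold N
  rw [hsplit _ (L.not_mem hk1).1, hsplit _ (L.not_mem hk2).1]
  set a1 := J Γ Γ' s0 (t0 - η) (Γ t0 + y * Complex.I * Γ' t0)
  set b1 := J Γ Γ' s0 (t0 - η) (Γ t0 - y * Complex.I * Γ' t0)
  set a2 := J Γ Γ' (t0 - η) (t0 + η) (Γ t0 + y * Complex.I * Γ' t0)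
  set b2 := J Γ Γ' (t0 - η) (t0 + η) (Γ t0 - y * Complex.I * Γ' t0)
  set a3 := J Γ Γ' (t0 + η) s1 (Γ t0 + y * Complex.I * Γ' t0)
  set b3 := J Γ Γ' (t0 + η) s1 (Γ t0 - y * Complex.I * Γ' t0)
  set a4 := J c c' 0 1 (Γ t0 + y * Complex.I * Γ' t0)
  set b4 := J c c' 0 1 (Γ t0 - y * Complex.I * Γ' t0)
  have key : a1 + a2 + a3 + a4 - (b1 + b2 + b3 + b4) = (a1 - b1) + (a2 - b2) + (a3 - b3) + (a4 - b4) := by
    ring
  rw [key]
  have n1 := norm_add_le ((a1 - b1) + (a2 - b2) + (a3 - b3)) (a4 - b4)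
  have n2 := norm_add_le ((a1 - b1) + (a2 - b2)) (a3 - b3)
  have n3 := norm_add_le (a1 - b1) (a2 - b2)
  set q : ℝ := M * (2 * ‖Γ' t0‖ * y) / (d / 2) ^ 2 with hq
  have hq0 : 0 ≤ q := by positivity
  have g : q * (t0 - η - s0) + q * (s1 - (t0 + η)) + q * (1 - 0) ≤ 1 := by
    have e1 : q * (2 * len) = M * (2 * ‖Γ' t0‖) / (d / 2) ^ 2 * (2 * len) * y := by rw [hq]; ring
    have e2 : q * (t0 - η - s0) + q * (s1 - (t0 + η)) + q * (1 - 0) ≤ q * (2 * len) := by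
      have : (t0 - η - s0) + (s1 - (t0 + η)) + (1 - 0) ≤ 2 * len := by rw [hlen]; linarith
      calc _ = q * ((t0 - η - s0) + (s1 - (t0 + η)) + (1 - 0)) := by ring
        _ ≤ _ := mul_le_mul_of_nonneg_left this hq0
    linarith
  linarith

end Loop

end Pool.Agent.Helper65.EU
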