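import Mathlib
import Pool.Agent.Helper65.EU.Wind4

/-! Bound of the winding numbers, conclusion. -/

set_option autoImplicit false

open Topology Filter Metric Set MeasureTheory
open scoped Real

namespace Pool.Agent.Helper65.EU

/-- `Γ` is a horizontal line in a chart near `Γ t0` -/
def Ch (Γ Γ' : ℝ → ℂ) (t0 : ℝ) : Prop :=
  ∃ e : OpenPartialHomeomorph ℂ ℂ, Γ t0 ∈ e.source ∧ e (Γ t0) = 0 ∧
    ∀ᶠ t in 𝓝 t0, (e (Γ t)).im = 0 ∧ ∀ᶠ y : ℝ in 𝓝[>] 0,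
      0 < (e (Γ t + y * Complex.I * Γ' t)).im ∧ (e (Γ t - y * Complex.I * Γ' t)).im < 0

theorem tend_pm (x v : ℂ) : Tendsto (fun y : ℝ => x + y * Complex.I * v) (𝓝[>] 0) (𝓝 x) ∧
    Tendsto (fun y : ℝ => x - y * Complex.I * v) (𝓝[>] 0) (𝓝 x) := by
  constructor
  · have h : Continuous fun y : ℝ => x + y * Complex.I * v := by fun_prop
    have := h.tendsto 0
    simp only [Complex.ofReal_zero, zero_mul, add_zero] at this
    exact this.mono_left nhdsWithin_le_nhds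
  · have h : Continuous fun y : ℝ => x - y * Complex.I * v := by fun_prop
    have := h.tendsto 0
    simp only [Complex.ofReal_zero, zero_mul, sub_zero] at this
    exact this.mono_left nhdsWithin_le_nhds

namespace Loop

variable {Γ Γ' c c' : ℝ → ℂ} {s0 s1 : ℝ} (L : Loop Γ Γ' c c' s0 s1)
include L

theorem local_pair {t0 : ℝ} (ht0 : t0 ∈ Ioo s0 s1) (hch : Ch Γ Γ' t0) : ∃ p : ℂ × ℂ,
    (∀ᶠ t in 𝓝 t0, ∀ᶠ y : ℝ in 𝓝[>] 0, L.N (Γ t + y * Complex.I * Γ' t) = p.1 ∧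
      L.N (Γ t - y * Complex.I * Γ' t) = p.2) ∧
    ∀ᶠ z in 𝓝 (Γ t0), z ∉ L.κ → L.N z = p.1 ∨ L.N z = p.2 := by
  obtain ⟨e, he1, he2, hev⟩ := hch
  obtain ⟨η, hη, hη2⟩ := Metric.eventually_nhds_iff.1 hev
  obtain ⟨d, hd, hd1, hd2⟩ := L.rest ht0 hη
  have h0t : (0 : ℂ) ∈ e.target := by rw [← he2]; exact e.map_source he1
  have hsc : ContinuousAt e.symm 0 := e.symm.continuousAt h0t
  have hs0 : e.symm 0 = Γ t0 := by rw [← he2]; exact e.left_inv he1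
  obtain ⟨ε1, hε1, hball1⟩ := Metric.isOpen_iff.1 e.open_target 0 h0t
  obtain ⟨ε2, hε2, hball2⟩ := Metric.continuousAt_iff.1 hsc d hd
  set ε : ℝ := min ε1 ε2 with hεd
  have hε : 0 < ε := lt_min hε1 hε2
  have hbt : ball (0 : ℂ) ε ⊆ e.target := (ball_subset_ball (min_le_left _ _)).trans hball1
  have hbd : ∀ ζ ∈ ball (0 : ℂ) ε, ‖e.symm ζ - Γ t0‖ < d := by
    intro ζ hζ
    have := hball2 (lt_of_lt_of_le (mem_ball.1 hζ) (min_le_right _ _))
    rwa [hs0, dist_eq_norm] at this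
  set U : Set ℂ := e.source ∩ e ⁻¹' ball 0 ε with hU
  have hUo : IsOpen U := e.isOpen_inter_preimage isOpen_ball
  have hU0 : Γ t0 ∈ U := ⟨he1, by rw [mem_preimage, he2]; exact mem_ball_self hε⟩
  have hUκ : ∀ z ∈ U, z ∈ L.κ → (e z).im = 0 := by
    intro z hz hzκ
    have hz1 : ‖z - Γ t0‖ < d := by
      have := hbd (e z) hz.2
      rwa [e.left_inv hz.1] at this
    rcases hzκ with ⟨t, ht, rfl⟩ | ⟨v, hv, rfl⟩
    · by_cases hte : η ≤ |t - t0|
      · exact absurd (hd1 t ht hte) (not_le.2 hz1)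
      · push Not at hte
        exact (hη2 (by rwa [Real.dist_eq])).1
    · exact absurd (hd2 v hv) (not_le.2 hz1)
  have hkey : ∀ S : Set ℂ, Convex ℝ S → (∀ ζ ∈ S, ζ.im ≠ 0) → ∀ x ∈ ball (0 : ℂ) ε ∩ S,
      ∀ y ∈ ball (0 : ℂ) ε ∩ S, L.N (e.symm x) = L.N (e.symm y) := by
    intro S hS hS0 x hx y hy
    have hpre : IsPreconnected (e.symm '' (ball (0 : ℂ) ε ∩ S)) :=
      ((convex_ball 0 ε).inter hS).isPreconnected.image _
        (e.symm.continuousOn.mono (fun z hz => hbt hz.1))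
    refine const_on hpre (f := L.N) ?_ _ ⟨x, hx, rfl⟩ _ ⟨y, hy, rfl⟩
    rintro _ ⟨ζ, hζ, rfl⟩
    apply L.locc
    intro hκ
    have h1 : e (e.symm ζ) = ζ := e.right_inv (hbt hζ.1)
    have h2 := hUκ _ ⟨e.map_target (hbt hζ.1), by rw [mem_preimage, h1]; exact hζ.1⟩ hκ
    rw [h1] at h2
    exact hS0 ζ hζ.2 h2
  have hup : Convex ℝ {ζ : ℂ | 0 < ζ.im} := convex_halfSpace_im_gt 0
  have hlo : Convex ℝ {ζ : ℂ | ζ.im < 0} := convex_halfSpace_im_lt 0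
  set x1 : ℂ := ((ε / 2 : ℝ) : ℂ) * Complex.I with hx1
  set x2 : ℂ := -(((ε / 2 : ℝ) : ℂ) * Complex.I) with hx2
  have hx1m : x1 ∈ ball (0 : ℂ) ε ∩ {ζ : ℂ | 0 < ζ.im} := by
    refine ⟨?_, ?_⟩
    · rw [mem_ball_zero_iff, hx1, norm_mul, Complex.norm_real, Complex.norm_I, mul_one,
        Real.norm_eq_abs, abs_of_pos (by positivity)]
      linarith
    · simp [hx1]
      positivity
  have hx2m : x2 ∈ ball (0 : ℂ) ε ∩ {ζ : ℂ | ζ.im < 0} := by
    refine ⟨?_, ?_⟩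
    · rw [mem_ball_zero_iff, hx2, norm_neg, norm_mul, Complex.norm_real, Complex.norm_I, mul_one,
        Real.norm_eq_abs, abs_of_pos (by positivity)]
      linarith
    · simp [hx2]
      positivity
  have hNup : ∀ z ∈ U, 0 < (e z).im → L.N z = L.N (e.symm x1) := by
    intro z hz hzi
    have := hkey _ hup (fun ζ hζ => ne_of_gt hζ) (e z) ⟨hz.2, hzi⟩ x1 hx1m
    rwa [e.left_inv hz.1] at this
  have hNlo : ∀ z ∈ U, (e z).im < 0 → L.N z = L.N (e.symm x2) := by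
    intro z hz hzi
    have := hkey _ hlo (fun ζ hζ => ne_of_lt hζ) (e z) ⟨hz.2, hzi⟩ x2 hx2m
    rwa [e.left_inv hz.1] at this
  refine ⟨(L.N (e.symm x1), L.N (e.symm x2)), ?_, ?_⟩
  · have hΓc : ContinuousAt Γ t0 := (L.hd t0 (Ioo_subset_Icc_self ht0)).continuousAt
    have h1 : ∀ᶠ t in 𝓝 t0, Γ t ∈ U := hΓc.eventually_mem (hUo.mem_nhds hU0)
    filter_upwards [h1, hev] with t ht1 ht2
    obtain ⟨h3, h4⟩ := tend_pm (Γ t) (Γ' t)
    filter_upwards [ht2.2, h3.eventually_mem (hUo.mem_nhds ht1),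
      h4.eventually_mem (hUo.mem_nhds ht1)] with y hy1 hy2 hy3
    exact ⟨hNup _ hy2 hy1.1, hNlo _ hy3 hy1.2⟩
  · filter_upwards [hUo.mem_nhds hU0] with z hz hzκ
    rcases lt_trichotomy (e z).im 0 with h | h | h
    · exact Or.inr (hNlo z hz h)
    · left
      have hzt : e z ∈ e.target := e.map_source hz.1
      have hc : ContinuousAt e.symm (e z) := e.symm.continuousAt hzt
      have h1 : Tendsto (fun y : ℝ => e z + y * Complex.I * 1) (𝓝[>] 0) (𝓝 (e z)) :=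
        (tend_pm (e z) 1).1
      have h2 : Tendsto (fun y : ℝ => e.symm (e z + y * Complex.I * 1)) (𝓝[>] 0) (𝓝 z) := by
        have := hc.tendsto.comp h1
        rwa [e.left_inv hz.1] at this
      have h3 := h2.eventually (L.locc hzκ)
      have h4 : ∀ᶠ y : ℝ in 𝓝[>] 0, e z + y * Complex.I * 1 ∈ ball (0 : ℂ) ε :=
        h1.eventually_mem (isOpen_ball.mem_nhds hz.2)
      obtain ⟨y, hy3, hy4, hy5⟩ := (h3.and (h4.and self_mem_nhdsWithin)).exists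
      have hy0 : (0 : ℝ) < y := hy5
      rw [← hy3]
      have h5 : e (e.symm (e z + y * Complex.I * 1)) = e z + y * Complex.I * 1 :=
        e.right_inv (hbt hy4)
      apply hNup
      · exact ⟨e.map_target (hbt hy4), by rw [mem_preimage, h5]; exact hy4⟩
      · rw [h5]
        simp [h, hy0]
    · exact Or.inl (hNup z hz h)

theorem pair (hch : ∀ t ∈ Ioo s0 s1, Ch Γ Γ' t) : ∃ p : ℂ × ℂ, ‖p.1 - p.2‖ ≤ 12 * π + 1 ∧
    ∀ t ∈ Ioo s0 s1, ∀ᶠ z in 𝓝 (Γ t), z ∉ L.κ → L.N z = p.1 ∨ L.N z = p.2 := by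
  classical
  choose! F hF1 hF2 using fun (t : ℝ) (ht : t ∈ Ioo s0 s1) => L.local_pair ht (hch t ht)
  have huniq : ∀ (t : ℝ) (p p' : ℂ × ℂ),
      (∀ᶠ y : ℝ in 𝓝[>] 0, L.N (Γ t + y * Complex.I * Γ' t) = p.1 ∧
        L.N (Γ t - y * Complex.I * Γ' t) = p.2) →
      (∀ᶠ y : ℝ in 𝓝[>] 0, L.N (Γ t + y * Complex.I * Γ' t) = p'.1 ∧
        L.N (Γ t - y * Complex.I * Γ' t) = p'.2) → p = p' := by
    intro t p p' h h'
    obtain ⟨y, h1, h2⟩ := (h.and h').exists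
    exact Prod.ext (h1.1.symm.trans h2.1) (h1.2.symm.trans h2.2)
  have hloc : ∀ t ∈ Ioo s0 s1, ∀ᶠ t' in 𝓝 t, F t' = F t := by
    intro t ht
    filter_upwards [hF1 t ht, isOpen_Ioo.mem_nhds ht] with t' h1 h2
    exact huniq t' _ _ (hF1 t' h2).self_of_nhds h1
  have hmid : (s0 + s1) / 2 ∈ Ioo s0 s1 := ⟨by linarith [L.lt], by linarith [L.lt]⟩
  refine ⟨F ((s0 + s1) / 2), ?_, fun t ht => ?_⟩
  · obtain ⟨y, h1, h2⟩ := ((hF1 _ hmid).self_of_nhds.and (L.jump hmid)).exists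
    rw [← h1.1, ← h1.2]
    exact h2.1
  · rw [const_on isPreconnected_Ioo hloc _ hmid _ ht]
    exact hF2 t ht

/-- the winding numbers are bounded -/
theorem winding_bound (hch : ∀ t ∈ Ioo s0 s1, Ch Γ Γ' t) {q : ℂ} {r : ℝ}
    (hcq : ∀ v ∈ Icc (0 : ℝ) 1, c v ∈ closedBall q r) {z : ℂ} (hz : z ∉ closedBall q r)
    (hzκ : z ∉ L.κ) : ∃ n : ℤ, |n| ≤ 9 ∧ L.N z = n * (2 * π * Complex.I) := by
  obtain ⟨p, hp, hp2⟩ := L.pair hch
  obtain ⟨n, hn⟩ := L.int_N hzκ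
  refine ⟨n, ?_, hn⟩
  by_cases hn0 : n = 0
  · rw [hn0]; norm_num
  obtain ⟨w, hwq, hwκ, hw0⟩ := L.far q r
  have hne : L.N z ≠ L.N w := by
    rw [hn, hw0]
    have : (n : ℂ) ≠ 0 := by exact_mod_cast hn0
    have hpi : (π : ℂ) ≠ 0 := by exact_mod_cast Real.pi_ne_zero
    simp [this, hpi]
  have hY := compl_ball_preconn q r
  have hκ2 : ∀ x ∈ L.κ ∩ (closedBall q r)ᶜ, (∀ᶠ y in 𝓝 x, y ∉ L.κ → L.N y = p.1 ∨ L.N y = p.2) ∧
      x ∈ closure (L.κ)ᶜ := by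
    rintro x ⟨hx, hxq⟩
    rcases hx with ⟨t, ht, rfl⟩ | ⟨v, hv, rfl⟩
    · have ht' : t ∈ Ioo s0 s1 := by
        rcases eq_or_lt_of_le ht.1 with h | h
        · exfalso
          apply hxq
          rw [← h, ← L.c1]
          exact hcq 1 (by norm_num)
        rcases eq_or_lt_of_le ht.2 with h' | h'
        · exfalso
          apply hxq
          rw [h', ← L.c0]
          exact hcq 0 (by norm_num)
        exact ⟨h, h'⟩
      refine ⟨hp2 t ht', ?_⟩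
      apply mem_closure_of_tendsto (tend_pm (Γ t) (Γ' t)).1
      filter_upwards [L.jump ht'] with y hy
      exact hy.2.1
    · exact absurd (hcq v hv) hxq
  have h1 := value_mem hY (fun x hx => L.locc hx) hκ2 hz hzκ hwq hwκ hne
  have h2 := value_mem hY (fun x hx => L.locc hx) hκ2 hwq hwκ hz hzκ hne.symm
  have h3 : ‖L.N z - L.N w‖ ≤ 12 * π + 1 := by
    rcases h1 with h1 | h1 <;> rcases h2 with h2 | h2
    · rw [h1, h2, sub_self, norm_zero]; positivity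
    · rw [h1, h2]; exact hp
    · rw [h1, h2, norm_sub_rev]; exact hp
    · rw [h1, h2, sub_self, norm_zero]; positivity
  rw [hw0, sub_zero, hn, norm_mul, Complex.norm_intCast] at h3
  have e2 : ‖(2 * π * Complex.I : ℂ)‖ = 2 * π := by
    simp [abs_of_pos Real.pi_pos]
  rw [e2] at h3
  have h4 : |(n : ℝ)| ≤ 9 := by
    by_contra hcon
    push Not at hcon
    have := Real.pi_gt_three
    nlinarith
  rw [← Int.cast_abs] at h4
  exact_mod_cast h4

end Loop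

end Pool.Agent.Helper65.EU
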